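import Pool.Agent.RNt.Def
import Pool.Agent.RLin.SysEx

set_option autoImplicit false

/-!
# RNt/BPKey: lengths and directions of `w' ^ n * g * w ^ m`

Notation: `l x = P.l ρ x`, `D x = P.D ρ x`, `E w = P.E ρ w`, `t = P.v P.T`, `0 < t < 1`.

`root_hyp`.  Let `w` be hyperbolic and `c * w = w * c`, `l c ≠ 0`.  Then `c` is hyperbolic.
Proof.  Suppose `D c = D c⁻¹`.  First let `D c ≠ D w⁻¹`.  By `far` for `x = w`, `y = c`:
`l (w * c) = l w + l c`, `D (w * c) = D w`.  Since `(w * c)⁻¹ = w⁻¹ * c⁻¹`,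
`l (w⁻¹ * c⁻¹) = l w⁻¹ + l c⁻¹` (`len_inv`).  By `near` (contraposition, `x = w⁻¹`, `y = c⁻¹`)
`D c⁻¹ ≠ D w`.  By `far` for `x = w⁻¹`, `y = c⁻¹`: `D (w⁻¹ * c⁻¹)⁻¹ = D c`, and
`(w⁻¹ * c⁻¹)⁻¹ = w * c`.  Hence `D c = D (w * c) = D w`, so `D c⁻¹ = D w`, a contradiction.
Now let `D c = D w⁻¹`.  Then `D c ≠ D w`, and the first case applies to `w⁻¹` instead of `w`
(`hyp_inv`).

`root_hyp'`.  If `c ^ m = w` is hyperbolic (`m` an integer) then `c` commutes with `w`, and `l c ≠ 0`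
since otherwise `c ∈ G₀` (`len_zero`), `w ∈ G₀`, `l w = 0`.

`key1`.  Let `w, w'` be hyperbolic and `g ∈ G` with `ρ g (E w) ≠ E w'⁻¹`.  There is `C` with
`n * l w' + m * l w ≤ l (w' ^ n * g * w ^ m) + C` for all `n, m`.
Proof.  Choose `u ≠ 0` in `E w` (`E_ne_bot`), `ρ g u = u₁ + u₂` with `u₁ ∈ E w'`, `u₂ ∈ E w'⁻¹`
(`E_sup`).  `u₁ ≠ 0` since otherwise `ρ g u ∈ E w'⁻¹` and `ρ g (E w) = E w'⁻¹` by `L3`.  Put
`v = ρ (w ^ m)⁻¹ u`, so `N v = t ^ (m * l w) * N u` (`E_N_pow_inv`), and let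
`y = w' ^ n * g * w ^ m`.  Then `ρ y v = ρ (w' ^ n) u₁ + ρ (w' ^ n) u₂`, the first summand is in
`E w'`, the second in `E w'⁻¹` (`E_comm`), so by `E_orth` `N (ρ y v) ≥ N (ρ (w' ^ n) u₁)`, and
`t ^ (n * l w') * N (ρ (w' ^ n) u₁) = N u₁` (`E_N_pow`).  By `N_rho_le`
`t ^ (l y) * N (ρ y v) ≤ N v`.  Together `t ^ (l y) * N u₁ ≤ t ^ (n * l w' + m * l w) * N u`.
By `exists_N` and `P.arch` (for a quotient of two coordinates) there is `C` with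
`t ^ C * N u ≤ N u₁`.  So `t ^ (l y + C) ≤ t ^ (n * l w' + m * l w)` and the claim follows
from `t < 1`.

`key2`.  Let `w, w', g` be as in `key1`.  There is `R` such that for all `n ≥ R` and all `m`
`l (w' ^ n * g * w ^ m) ≠ 0` and `D (w' ^ n * g * w ^ m) = D w'`.
Proof.  Let `C` be as in `key1`, `y_n = w' ^ n * g * w ^ m` and `R = l g + 2 * C + 2`.
For `j > C` we have `l y_j ≥ j * l w' - C ≥ 1` by `key1`.  Claim: there is `j` with `C < j < R` and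
`D y_j ≠ D w'⁻¹`.  Otherwise, since `y_(j+1) = w' * y_j`, by `near`
`l y_(j+1) + 1 ≤ l w' + l y_j` for `C < j < R`, and
`l y_(C+1) ≤ (C + 1) * l w' + l g + m * l w` (`mul_le`, `hyp_pow`), so
`l y_R + (R - C - 1) ≤ R * l w' + l g + m * l w`.  With `key1` for `n = R`:
`R - C - 1 ≤ l g + C`, a contradiction.  For `n ≥ R` we have `n > j` and
`y_n = w' ^ (n - j) * y_j`, `D (w' ^ (n - j))⁻¹ = D w'⁻¹ ≠ D y_j` (`hyp_pow`), so by `far`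
`l y_n ≠ 0` and `D y_n = D (w' ^ (n - j)) = D w'`.

`key3` (two-sided).  Let `w, w', g` be as in `key1`.  There is `R` such that for all `n, m ≥ R`, with
`y = w' ^ n * g * w ^ m`: `l y ≠ 0`, `D y = D w'`, `D y⁻¹ = D w⁻¹`.
Proof.  `key2` for `w, w', g` and for `w'⁻¹, w⁻¹, g⁻¹`: `y⁻¹ = w⁻¹ ^ m * g⁻¹ * w'⁻¹ ^ n`; the
hypothesis `ρ g⁻¹ (E w'⁻¹) ≠ E w⁻¹⁻¹ = E w` follows by applying `ρ g` (`im_mul`, `im_one`).
-/

universe u

namespace RNt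

open RLin Matrix

variable {K L Γ : Type u} [Field K] [Field L] [LinearOrderedCommGroupWithZero Γ]
variable {ι : Type} [Fintype ι] [DecidableEq ι] {P : Place K L Γ}
variable {G : Type u} [Group G] {ρ : G →* Matrix ι ι L} {G₀ : Subgroup G} {X : Set G}

private theorem root_hyp_aux (h : Geo P ρ G₀ X) {w c : G} (hw : P.Hyp ρ w) (hc : c * w = w * c)
    (hl : P.l ρ c ≠ 0) (hcc : P.D ρ c = P.D ρ c⁻¹) (hne : P.D ρ c ≠ P.D ρ w⁻¹) : False := by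
  have hwi := h.hyp_inv hw
  have hci : P.l ρ c⁻¹ ≠ 0 := by rw [h.len_inv]; exact hl
  obtain ⟨h1, h2, h3⟩ := h.far hw.1 hl hne
  have h4 : (w * c)⁻¹ = w⁻¹ * c⁻¹ := by
    rw [← hc, _root_.mul_inv_rev]
  have h5 : P.l ρ (w⁻¹ * c⁻¹) = P.l ρ w⁻¹ + P.l ρ c⁻¹ := by
    rw [← h4, h.len_inv, h1, h.len_inv, h.len_inv]
  have h6 : P.D ρ c⁻¹ ≠ P.D ρ w⁻¹⁻¹ := by
    intro h7
    have h8 := h.near hwi.1 h7
    omega
  obtain ⟨-, -, h9⟩ := h.far hwi.1 hci h6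
  have h10 : (w⁻¹ * c⁻¹)⁻¹ = w * c := by rw [← h4, inv_inv]
  rw [h10, inv_inv] at h9
  apply h6
  rw [inv_inv, ← hcc, ← h9, h2]

theorem root_hyp (h : Geo P ρ G₀ X) {w c : G} (hw : P.Hyp ρ w) (hc : c * w = w * c)
    (hl : P.l ρ c ≠ 0) : P.Hyp ρ c := by
  refine ⟨hl, ?_⟩
  intro hcc
  by_cases hne : P.D ρ c = P.D ρ w⁻¹
  · refine root_hyp_aux h (h.hyp_inv hw) (c := c) ?_ hl hcc ?_
    · rw [mul_inv_eq_iff_eq_mul, mul_assoc, hc, inv_mul_cancel_left]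
    · rw [inv_inv, hne]
      exact hw.2.symm
  · exact root_hyp_aux h hw hc hl hcc hne

theorem root_hyp' (h : Geo P ρ G₀ X) {w c : G} (hw : P.Hyp ρ w) {m : ℤ} (hm : c ^ m = w) :
    P.Hyp ρ c := by
  refine root_hyp h hw ?_ ?_
  · rw [← hm, ← _root_.zpow_one_add, ← _root_.zpow_add_one, add_comm]
  · intro h0
    have h1 : c ∈ G₀ := (h.len_zero c).1 h0
    apply hw.1
    rw [h.len_zero, ← hm]
    exact G₀.zpow_mem h1 m

private theorem lw_pow (h : Geo P ρ G₀ X) {w : G} (hw : P.Hyp ρ w) (n : ℕ) :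
    P.l ρ (w ^ n) = n * P.l ρ w := by
  cases n with
  | zero => rw [pow_zero, h.l_one, zero_mul]
  | succ n => exact (h.hyp_pow hw n).1

variable [IsAlgClosed L]

theorem key1 [Nonempty ι] (h : Geo P ρ G₀ X) {w w' g : G} (hw : P.Hyp ρ w) (hw' : P.Hyp ρ w')
    (hg : im (ρ g) (P.E ρ w) ≠ P.E ρ w'⁻¹) :
    ∃ C : ℕ, ∀ n m : ℕ, n * P.l ρ w' + m * P.l ρ w ≤ P.l ρ (w' ^ n * g * w ^ m) + C := by
  obtain ⟨u, hu, hu0⟩ := (Submodule.ne_bot_iff _).1 (h.E_ne_bot hw)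
  have hsup : ρ g *ᵥ u ∈ P.E ρ w' ⊔ P.E ρ w'⁻¹ := by
    rw [h.E_sup hw']
    exact Submodule.mem_top
  obtain ⟨u₁, hu₁, u₂, hu₂, hsum⟩ := Submodule.mem_sup.1 hsup
  have hu₁0 : u₁ ≠ 0 := by
    rintro rfl
    rw [zero_add] at hsum
    apply hg
    exact h.L3 hw (h.hyp_inv hw') g hu0 hu (by rw [← hsum]; exact hu₂)
  have ht : 0 < P.v P.T := v_T_pos P
  have ht1 := P.T_lt
  -- the constant
  obtain ⟨C, hC⟩ : ∃ C : ℕ, P.v P.T ^ C * P.N u ≤ P.N u₁ := by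
    obtain ⟨k, hk⟩ := exists_N P u hu0
    obtain ⟨k₁, hk₁⟩ := exists_N P u₁ hu₁0
    have hN : P.N u ≠ 0 := fun h0 => hu0 ((N_eq_zero P u).1 h0)
    have hN₁ : P.N u₁ ≠ 0 := fun h0 => hu₁0 ((N_eq_zero P u₁).1 h0)
    have hk0 : u k ≠ 0 := by
      intro h0
      rw [hk, h0, map_zero] at hN
      exact hN rfl
    have hk₁0 : u₁ k₁ ≠ 0 := by
      intro h0
      rw [hk₁, h0, map_zero] at hN₁
      exact hN₁ rfl
    obtain ⟨C, hC⟩ := P.arch (u₁ k₁ / u k) (div_ne_zero hk₁0 hk0)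
    refine ⟨C, ?_⟩
    rw [map_div₀, ← hk, ← hk₁] at hC
    exact (le_div_iff₀ (zero_lt_iff.2 hN)).1 hC
  refine ⟨C, fun n m => ?_⟩
  obtain ⟨hv, hNv⟩ := h.E_N_pow_inv hw m hu
  set v := ρ (w ^ m)⁻¹ *ᵥ u with hvdef
  set y := w' ^ n * g * w ^ m with hy
  have hyv : ρ y *ᵥ v = ρ (w' ^ n) *ᵥ u₁ + ρ (w' ^ n) *ᵥ u₂ := by
    rw [← Matrix.mulVec_add, hsum, hvdef, Matrix.mulVec_mulVec, ← map_mul, Matrix.mulVec_mulVec,
      ← map_mul]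
    congr 2
    rw [hy]
    group
  have e1 : ρ (w' ^ n) *ᵥ u₁ ∈ P.E ρ w' :=
    E_comm ((Commute.refl w').pow_left n) hu₁
  have e2 : ρ (w' ^ n) *ᵥ u₂ ∈ P.E ρ w'⁻¹ :=
    E_comm (((Commute.refl w').pow_left n).inv_right) hu₂
  have e3 : P.N (ρ (w' ^ n) *ᵥ u₁) ≤ P.N (ρ y *ᵥ v) := by
    rw [hyv, h.E_orth hw' e1 e2]
    exact le_max_left _ _
  have e4 := h.E_N_pow hw' n hu₁
  have e5 := N_rho_le P ρ y v
  have hNu : 0 < P.N u := zero_lt_iff.2 fun h0 => hu0 ((N_eq_zero P u).1 h0)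
  have e6 : P.v P.T ^ (P.l ρ y + C) ≤ P.v P.T ^ (n * P.l ρ w' + m * P.l ρ w) := by
    have e7 : P.v P.T ^ (P.l ρ y + C) * P.N u ≤
        P.v P.T ^ (n * P.l ρ w' + m * P.l ρ w) * P.N u := by
      calc P.v P.T ^ (P.l ρ y + C) * P.N u
          = P.v P.T ^ P.l ρ y * (P.v P.T ^ C * P.N u) := by rw [pow_add, mul_assoc]
        _ ≤ P.v P.T ^ P.l ρ y * P.N u₁ := mul_le_mul_right hC _
        _ = P.v P.T ^ P.l ρ y * (P.v P.T ^ (n * P.l ρ w') * P.N (ρ (w' ^ n) *ᵥ u₁)) := by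
            rw [e4]
        _ ≤ P.v P.T ^ P.l ρ y * (P.v P.T ^ (n * P.l ρ w') * P.N (ρ y *ᵥ v)) :=
            mul_le_mul_right (mul_le_mul_right e3 _) _
        _ = P.v P.T ^ (n * P.l ρ w') * (P.v P.T ^ P.l ρ y * P.N (ρ y *ᵥ v)) := by
            rw [mul_left_comm]
        _ ≤ P.v P.T ^ (n * P.l ρ w') * P.N v := mul_le_mul_right e5 _
        _ = P.v P.T ^ (n * P.l ρ w' + m * P.l ρ w) * P.N u := by
            rw [hNv, pow_add, mul_assoc]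
    exact le_of_mul_le_mul_right e7 hNu
  by_contra hcon
  push Not at hcon
  have e8 : P.v P.T ^ (n * P.l ρ w' + m * P.l ρ w) < P.v P.T ^ (P.l ρ y + C) :=
    pow_lt_pow_right_of_lt_one₀ ht ht1 hcon
  exact absurd e6 (not_le.2 e8)

theorem key2 [Nonempty ι] (h : Geo P ρ G₀ X) {w w' g : G} (hw : P.Hyp ρ w) (hw' : P.Hyp ρ w')
    (hg : im (ρ g) (P.E ρ w) ≠ P.E ρ w'⁻¹) :
    ∃ R : ℕ, ∀ n m : ℕ, R ≤ n → P.l ρ (w' ^ n * g * w ^ m) ≠ 0 ∧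
      P.D ρ (w' ^ n * g * w ^ m) = P.D ρ w' := by
  obtain ⟨C, hC⟩ := key1 h hw hw' hg
  refine ⟨P.l ρ g + 2 * C + 2, fun n m hn => ?_⟩
  have hl' : 1 ≤ P.l ρ w' := Nat.one_le_iff_ne_zero.2 hw'.1
  have hy0 : ∀ j, C < j → P.l ρ (w' ^ j * g * w ^ m) ≠ 0 := by
    intro j hj h0
    have h1 := hC j m
    rw [h0] at h1
    have h2 : j ≤ j * P.l ρ w' := Nat.le_mul_of_pos_right _ hl'
    omega
  have hstep : ∀ j, w' ^ (j + 1) * g * w ^ m = w' * (w' ^ j * g * w ^ m) := by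
    intro j
    rw [pow_succ']
    group
  obtain ⟨j, hj1, hj2, hj3⟩ : ∃ j, C < j ∧ j < P.l ρ g + 2 * C + 2 ∧
      P.D ρ (w' ^ j * g * w ^ m) ≠ P.D ρ w'⁻¹ := by
    by_contra hcon
    push Not at hcon
    have hind : ∀ k, C + 1 + k ≤ P.l ρ g + 2 * C + 2 →
        P.l ρ (w' ^ (C + 1 + k) * g * w ^ m) + k ≤
          (C + 1 + k) * P.l ρ w' + P.l ρ g + m * P.l ρ w := by
      intro k
      induction k with
      | zero =>
        intro _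
        have h1 := h.mul_le (w' ^ (C + 1) * g) (w ^ m)
        have h2 := h.mul_le (w' ^ (C + 1)) g
        rw [lw_pow h hw] at h1
        rw [lw_pow h hw'] at h2
        simp only [add_zero]
        omega
      | succ k ih =>
        intro hk
        have h1 := ih (by omega)
        have h2 := hcon (C + 1 + k) (by omega) (by omega)
        have h3 := h.near hw'.1 h2
        rw [← hstep] at h3
        have h4 : C + 1 + (k + 1) = C + 1 + k + 1 := by ring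
        rw [h4]
        have h5 : (C + 1 + k + 1) * P.l ρ w' = (C + 1 + k) * P.l ρ w' + P.l ρ w' := by ring
        rw [h5]
        omega
    have h1 := hind (P.l ρ g + C + 1) (by omega)
    have h2 := hC (C + 1 + (P.l ρ g + C + 1)) m
    omega
  obtain ⟨k, rfl⟩ : ∃ k, n = k + 1 + j := ⟨n - j - 1, by omega⟩
  have h1 : w' ^ (k + 1 + j) * g * w ^ m = w' ^ (k + 1) * (w' ^ j * g * w ^ m) := by
    rw [pow_add]
    group
  obtain ⟨p1, p2, p3, p4⟩ := h.hyp_pow hw' k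
  obtain ⟨q1, q2, -⟩ := h.far p4.1 (hy0 j hj1) (by rw [p3]; exact hj3)
  rw [h1]
  refine ⟨?_, q2.trans p2⟩
  rw [q1]
  have := p4.1
  omega

theorem key3 [Nonempty ι] (h : Geo P ρ G₀ X) {w w' g : G} (hw : P.Hyp ρ w) (hw' : P.Hyp ρ w')
    (hg : im (ρ g) (P.E ρ w) ≠ P.E ρ w'⁻¹) :
    ∃ R : ℕ, ∀ n m : ℕ, R ≤ n → R ≤ m → P.l ρ (w' ^ n * g * w ^ m) ≠ 0 ∧
      P.D ρ (w' ^ n * g * w ^ m) = P.D ρ w' ∧ P.D ρ (w' ^ n * g * w ^ m)⁻¹ = P.D ρ w⁻¹ := by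
  obtain ⟨R₁, h1⟩ := key2 h hw hw' hg
  have hg' : im (ρ g⁻¹) (P.E ρ w'⁻¹) ≠ P.E ρ w⁻¹⁻¹ := by
    rw [inv_inv]
    intro h0
    apply hg
    rw [← h0, ← im_mul, ← map_mul, mul_inv_cancel, map_one, im_one]
  obtain ⟨R₂, h2⟩ := key2 h (h.hyp_inv hw') (h.hyp_inv hw) hg'
  refine ⟨max R₁ R₂, fun n m hn hm => ?_⟩
  obtain ⟨p1, p2⟩ := h1 n m (le_trans (le_max_left _ _) hn)
  obtain ⟨-, q2⟩ := h2 m n (le_trans (le_max_right _ _) hm)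
  refine ⟨p1, p2, ?_⟩
  have h3 : (w' ^ n * g * w ^ m)⁻¹ = w⁻¹ ^ m * g⁻¹ * w'⁻¹ ^ n := by
    rw [_root_.mul_inv_rev, _root_.mul_inv_rev, inv_pow, inv_pow, mul_assoc]
  rw [h3, q2]

end RNt
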