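import Pool.Agent.RNt.Def
import Pool.Agent.RLin.SysEx

set_option autoImplicit false

/-!
# RNt/BPSep: separation of the attracting subspaces

Notation: `E w = P.E ρ w`.

`sepE`.  Let `c` be a family with `comm` such that every `c i` is hyperbolic.  If
`ρ g (E a) = E b` with `a = c j` or `(c j)⁻¹`, `b = c i` or `(c i)⁻¹` then `i = j` and
`g ∈ zpowers (c i)`.  Proof: let `s` be the generator of the stabiliser of `E b` (`stab`);
`b` and `g * a * g⁻¹` stabilise `E b` (`im_mul`, `E_comm`), so `b = s ^ q`, `g * a * g⁻¹ = s ^ p`, and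
`q ≠ 0` as `b ≠ 1`.  Hence `g * a ^ q * g⁻¹ = (g * a * g⁻¹) ^ q = s ^ (p * q) = b ^ p`, that is
`g * c j ^ (± q) * g⁻¹ = c i ^ (± p)`, and `comm` applies.

`sepE'`.  If moreover the word is reduced, that is `i = j → g ∉ zpowers (c i)`, then
`ρ g (E a) ≠ E b` for all four sign choices.  And for every `g` (no condition)
`ρ g (E (c i)) ≠ E (c i)⁻¹`, `ρ g (E (c i)⁻¹) ≠ E (c i)`: otherwise by `sepE` `g ∈ zpowers (c i)`, so
`g` commutes with `c i` and stabilises `E (c i)` (`E_comm` for `g` and `g⁻¹`), hence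
`E (c i) = E (c i)⁻¹`, which contradicts `E_disj` and `E_ne_bot`.
-/

universe u

namespace RNt

open RLin Matrix

variable {K L Γ : Type u} [Field K] [Field L] [LinearOrderedCommGroupWithZero Γ]
variable {ι : Type} [Fintype ι] [DecidableEq ι] {P : Place K L Γ}
variable {G : Type u} [Group G] {ρ : G →* Matrix ι ι L} {G₀ : Subgroup G} {X : Set G}
variable [IsAlgClosed L]

omit [IsAlgClosed L] in
private theorem BPSep_ne_one (h : Geo P ρ G₀ X) {w : G} (hw : P.Hyp ρ w) : w ≠ 1 := by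
  rintro rfl
  exact hw.1 h.l_one

private theorem BPSep_self {w g : G} (hg : g * w = w * g) :
    im (ρ g) (P.E ρ w) = P.E ρ w := by
  ext u
  rw [im_rho_mem]
  have hg' : g⁻¹ * w = w * g⁻¹ := by
    rw [inv_mul_eq_iff_eq_mul, ← mul_assoc, hg, mul_assoc, mul_inv_cancel, mul_one]
  constructor
  · intro hu
    have h1 := E_comm (P := P) (ρ := ρ) hg hu
    rw [Matrix.mulVec_mulVec, ← map_mul, mul_inv_cancel, map_one, Matrix.one_mulVec] at h1
    exact h1
  · intro hu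
    exact E_comm hg' hu

omit [IsAlgClosed L] in
private theorem BPSep_im_inv {g : G} {E F : Submodule L (ι → L)} (hg : im (ρ g) E = F) :
    im (ρ g⁻¹) F = E := by
  rw [← hg, ← im_mul, ← map_mul, inv_mul_cancel, map_one, im_one]

private theorem BPSep_ne [Nonempty ι] (h : Geo P ρ G₀ X) {w : G} (hw : P.Hyp ρ w) :
    P.E ρ w ≠ P.E ρ w⁻¹ := by
  intro he
  have h1 := h.E_disj hw
  rw [← he, disjoint_self] at h1
  exact h.E_ne_bot hw h1

theorem sepE [Nonempty ι] (h : Geo P ρ G₀ X) {I : Type u} {c : I → G}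
    (hc : ∀ i, P.Hyp ρ (c i))
    (hcomm : ∀ i j g (k l : ℤ), k ≠ 0 → g * c j ^ k * g⁻¹ = c i ^ l →
      i = j ∧ g ∈ Subgroup.zpowers (c i)) {i j : I} {g a b : G} (ha : a = c j ∨ a = (c j)⁻¹)
    (hb : b = c i ∨ b = (c i)⁻¹) (hg : im (ρ g) (P.E ρ a) = P.E ρ b) :
    i = j ∧ g ∈ Subgroup.zpowers (c i) := by
  have hb' : P.Hyp ρ b := by
    rcases hb with rfl | rfl
    · exact hc i
    · exact h.hyp_inv (hc i)
  obtain ⟨s, hs, -⟩ := h.stab hb'
  have h1 : b ∈ Subgroup.zpowers s := (hs b).1 (BPSep_self rfl)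
  have h2 : g * a * g⁻¹ ∈ Subgroup.zpowers s := by
    refine (hs _).1 ?_
    rw [map_mul, map_mul, im_mul, im_mul, BPSep_im_inv hg, BPSep_self (rfl : a * a = a * a), hg]
  obtain ⟨q, hq⟩ := Subgroup.mem_zpowers_iff.1 h1
  obtain ⟨p, hp⟩ := Subgroup.mem_zpowers_iff.1 h2
  have hq0 : q ≠ 0 := by
    rintro rfl
    rw [_root_.zpow_zero] at hq
    exact BPSep_ne_one h hb' hq.symm
  have h3 : g * a ^ q * g⁻¹ = b ^ p := by
    rw [← conj_zpow, ← hp, ← hq, ← _root_.zpow_mul, ← _root_.zpow_mul, mul_comm]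
  rcases ha with rfl | rfl
  · rcases hb with rfl | rfl
    · exact hcomm i j g q p hq0 h3
    · rw [_root_.inv_zpow'] at h3
      exact hcomm i j g q (-p) hq0 h3
  · rw [_root_.inv_zpow'] at h3
    rcases hb with rfl | rfl
    · exact hcomm i j g (-q) p (neg_ne_zero.2 hq0) h3
    · rw [_root_.inv_zpow'] at h3
      exact hcomm i j g (-q) (-p) (neg_ne_zero.2 hq0) h3

/-- no condition on `g` -/
theorem sepE' [Nonempty ι] (h : Geo P ρ G₀ X) {I : Type u} {c : I → G}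
    (hc : ∀ i, P.Hyp ρ (c i))
    (hcomm : ∀ i j g (k l : ℤ), k ≠ 0 → g * c j ^ k * g⁻¹ = c i ^ l →
      i = j ∧ g ∈ Subgroup.zpowers (c i)) (i : I) (g : G) :
    im (ρ g) (P.E ρ (c i)) ≠ P.E ρ (c i)⁻¹ ∧ im (ρ g) (P.E ρ (c i)⁻¹) ≠ P.E ρ (c i) := by
  have hz : g ∈ Subgroup.zpowers (c i) → g * c i = c i * g := by
    intro hg
    obtain ⟨k, hk⟩ := Subgroup.mem_zpowers_iff.1 hg
    rw [← hk]
    exact ((Commute.refl (c i)).zpow_left k).eq
  constructor
  · intro hg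
    have h1 := (sepE h hc hcomm (Or.inl rfl) (Or.inr rfl) hg).2
    rw [BPSep_self (hz h1)] at hg
    exact BPSep_ne h (hc i) hg
  · intro hg
    have h1 := (sepE h hc hcomm (Or.inr rfl) (Or.inl rfl) hg).2
    have h2 : g * (c i)⁻¹ = (c i)⁻¹ * g := ((show Commute g (c i) from hz h1).inv_right).eq
    rw [BPSep_self h2] at hg
    exact BPSep_ne h (hc i) hg.symm

end RNt
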