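import Pool.Agent.RNt.BPKey
import Pool.Agent.RNt.BPSep

set_option autoImplicit false

/-!
# RNt/BPMain: the big powers property from the geometry

Notation: `l x = P.l ρ x`, `D x = P.D ρ x`, `E w = P.E ρ w`, `t = P.v P.T`, `0 < t < 1`.

`bp_main`.  Let every `c i` be hyperbolic, `comm`.  For a reduced word `(i, g) :: w'` and every `B`
there is `R` such that for all `κ` with `|κ| ≥ R` and all `y` with `Val c R w' y` the element
`x = c i ^ κ * g * y` satisfies: `D x = D (c i)` if `κ > 0`, `D x = D (c i)⁻¹` if `κ < 0`, and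
`B ≤ l x`.  We may assume `B ≥ 1`, `R ≥ 1`.  Induction on `w'`.
`w' = []`: `y = 1`.  For `κ > 0` use `key1` and `key2` for `w' = w = c i`, this `g` and `m = 0`
(hypothesis: `sepE'`); `l x ≥ κ * l (c i) - C ≥ κ - C`.  For `κ < 0` the same with `(c i)⁻¹`.
`w' = (j, h) :: w''`: let `R₂` be the bound of the induction hypothesis for `(j, h) :: w''` and `B`,
and let `R₁` be the maximum of the four bounds of `key3` for `w' ∈ {c i, (c i)⁻¹}`,
`w ∈ {c j, (c j)⁻¹}` and `g`.  `R = R₁ + R₂ + 1`.  Let `y = c j ^ κ' * h * z`, `|κ'| ≥ R`,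
`Val c R w'' z` (hence `Val c R₂ w'' z`, `Val` is antitone in `R`), `ε` the sign of `κ'`.
Put `y' = c j ^ (κ' - ε * R₁) * h * z`; `|κ' - ε * R₁| ≥ R₂ + 1` with the same sign, so
`D y' = D (c j ^ ε)`, `B ≤ l y'`.  Let `x₁ = c i ^ κ * g * (c j ^ ε) ^ R₁`; by `key3`
`l x₁ ≠ 0`, `D x₁ = D (c i ^ (sign κ))`, `D x₁⁻¹ = D (c j ^ ε)⁻¹ ≠ D y'`.  By `far`
`l (x₁ * y') = l x₁ + l y'`, `D (x₁ * y') = D x₁`, and `x = x₁ * y'`.

`bp`.  All `c i` are hyperbolic by `root_hyp'`.  Let `w = (i, g₁) :: w'` be reduced and `g : G`.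
Take `B = l g + 1` in `bp_main`: `l x > l g`, so `x ≠ g`.
-/

universe u

namespace RNt

open RLin Matrix

variable {K L Γ : Type u} [Field K] [Field L] [LinearOrderedCommGroupWithZero Γ]
variable {ι : Type} [Fintype ι] [DecidableEq ι] {P : Place K L Γ}
variable {G : Type u} [Group G] {ρ : G →* Matrix ι ι L} {G₀ : Subgroup G} {X : Set G}
variable [IsAlgClosed L]

private theorem BPMain_anti {I : Type u} {c : I → G} {R R' : ℕ} (hR : R' ≤ R) :
    ∀ (w : List (I × G)) (x : G), Val c R w x → Val c R' w x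
  | [], _, hx => hx
  | _ :: w, _, hx => by
    obtain ⟨κ, hκ, y, hy, e⟩ := hx
    exact ⟨κ, le_trans (by exact_mod_cast hR) hκ, y, BPMain_anti hR w y hy, e⟩

/-- the element `c` or its inverse -/
private def BPMain_s (c : G) (e : Bool) : G := if e then c else c⁻¹

private theorem BPMain_cases (c : G) (e : Bool) : BPMain_s c e = c ∨ BPMain_s c e = c⁻¹ := by
  cases e
  · right; rfl
  · left; rfl

private theorem BPMain_casesI (c : G) (e : Bool) :
    (BPMain_s c e)⁻¹ = c ∨ (BPMain_s c e)⁻¹ = c⁻¹ := by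
  cases e
  · left
    show (c⁻¹)⁻¹ = c
    exact inv_inv c
  · right
    rfl

private theorem BPMain_hyp (h : Geo P ρ G₀ X) {c : G} (hc : P.Hyp ρ c) (e : Bool) :
    P.Hyp ρ (BPMain_s c e) := by
  cases e
  · exact h.hyp_inv hc
  · exact hc

/-- integer powers as natural powers of `c` or `c⁻¹` -/
private theorem BPMain_zpow (c : G) {κ : ℤ} (n : ℕ) :
    (κ = n → c ^ κ = BPMain_s c true ^ n) ∧ (κ = -n → c ^ κ = BPMain_s c false ^ n) := by
  constructor
  · intro e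
    rw [e]
    show c ^ (n : ℤ) = c ^ n
    exact zpow_natCast c n
  · intro e
    rw [e]
    show c ^ (-(n : ℤ)) = (c⁻¹) ^ n
    rw [_root_.zpow_neg, zpow_natCast, inv_pow]

theorem bp_main [Nonempty ι] (h : Geo P ρ G₀ X) {I : Type u} {c : I → G}
    (hc : ∀ i, P.Hyp ρ (c i))
    (hcomm : ∀ i j g (k l : ℤ), k ≠ 0 → g * c j ^ k * g⁻¹ = c i ^ l →
      i = j ∧ g ∈ Subgroup.zpowers (c i)) (w : List (I × G)) (i : I) (g : G)
    (hw : Red c ((i, g) :: w)) (B : ℕ) :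
    ∃ R : ℕ, ∀ (κ : ℤ) (y : G), (R : ℤ) ≤ |κ| → Val c R w y →
      (0 < κ → P.D ρ (c i ^ κ * g * y) = P.D ρ (c i)) ∧
      (κ < 0 → P.D ρ (c i ^ κ * g * y) = P.D ρ (c i)⁻¹) ∧ B ≤ P.l ρ (c i ^ κ * g * y) := by
  -- it is enough to treat the two signs separately
  suffices H : ∃ R : ℕ, ∀ (e : Bool) (n : ℕ) (y : G), R ≤ n → Val c R w y →
      P.D ρ (BPMain_s (c i) e ^ n * g * y) = P.D ρ (BPMain_s (c i) e) ∧
      B ≤ P.l ρ (BPMain_s (c i) e ^ n * g * y) by
    obtain ⟨R, hR⟩ := H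
    refine ⟨R + 1, fun κ y hκ hy => ?_⟩
    have hy' : Val c R w y := BPMain_anti (Nat.le_succ R) w y hy
    push_cast at hκ
    obtain ⟨n, hn | hn⟩ := Int.eq_nat_or_neg κ
    · have hnR : R + 1 ≤ n := by
        rw [hn, abs_of_nonneg (Int.natCast_nonneg n)] at hκ
        exact_mod_cast hκ
      obtain ⟨h1, h2⟩ := hR true n y (by omega) hy'
      rw [(BPMain_zpow (c i) n).1 hn]
      refine ⟨fun _ => h1, fun hlt => ?_, h2⟩
      omega
    · have hnR : R + 1 ≤ n := by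
        rw [hn, abs_neg, abs_of_nonneg (Int.natCast_nonneg n)] at hκ
        exact_mod_cast hκ
      obtain ⟨h1, h2⟩ := hR false n y (by omega) hy'
      rw [(BPMain_zpow (c i) n).2 hn]
      refine ⟨fun hlt => ?_, fun _ => h1, h2⟩
      omega
  induction w generalizing i g B with
  | nil =>
    have hg : ∀ e : Bool, im (ρ g) (P.E ρ (BPMain_s (c i) e)) ≠ P.E ρ (BPMain_s (c i) e)⁻¹ := by
      intro e
      have h1 := sepE' h hc hcomm i g
      cases e
      · show im (ρ g) (P.E ρ (c i)⁻¹) ≠ P.E ρ ((c i)⁻¹)⁻¹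
        rw [inv_inv]
        exact h1.2
      · exact h1.1
    have k1 : ∀ e : Bool, ∃ C : ℕ, ∀ n m : ℕ, n * P.l ρ (BPMain_s (c i) e) +
        m * P.l ρ (BPMain_s (c i) e) ≤
          P.l ρ (BPMain_s (c i) e ^ n * g * BPMain_s (c i) e ^ m) + C :=
      fun e => key1 h (BPMain_hyp h (hc i) e) (BPMain_hyp h (hc i) e) (hg e)
    have k2 : ∀ e : Bool, ∃ R : ℕ, ∀ n m : ℕ, R ≤ n →
        P.l ρ (BPMain_s (c i) e ^ n * g * BPMain_s (c i) e ^ m) ≠ 0 ∧
          P.D ρ (BPMain_s (c i) e ^ n * g * BPMain_s (c i) e ^ m) = P.D ρ (BPMain_s (c i) e) :=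
      fun e => key2 h (BPMain_hyp h (hc i) e) (BPMain_hyp h (hc i) e) (hg e)
    choose C hC using k1
    choose R hR using k2
    refine ⟨B + C true + C false + R true + R false, fun e n y hn hy => ?_⟩
    have hy1 : y = 1 := hy
    have hle : C e ≤ C true + C false := by cases e <;> omega
    have hle' : R e ≤ R true + R false := by cases e <;> omega
    have h1 := hC e n 0
    have h2 := (hR e n 0 (by omega)).2
    rw [pow_zero] at h1 h2
    rw [hy1]
    refine ⟨h2, ?_⟩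
    have h3 : 1 ≤ P.l ρ (BPMain_s (c i) e) := Nat.one_le_iff_ne_zero.2 (BPMain_hyp h (hc i) e).1
    have h4 : n * 1 ≤ n * P.l ρ (BPMain_s (c i) e) := Nat.mul_le_mul_left n h3
    omega
  | cons p w ih =>
    obtain ⟨j, g'⟩ := p
    obtain ⟨hred, hw'⟩ := hw
    obtain ⟨R₂, hR₂⟩ := ih j g' hw' (B + 1)
    have hsep : ∀ e e' : Bool, im (ρ g) (P.E ρ (BPMain_s (c j) e')) ≠ P.E ρ (BPMain_s (c i) e)⁻¹ := by
      intro e e' heq
      have h1 := sepE h hc hcomm (BPMain_cases (c j) e') (BPMain_casesI (c i) e) heq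
      exact hred h1.1 h1.2
    have k3 : ∀ e e' : Bool, ∃ R : ℕ, ∀ n m : ℕ, R ≤ n → R ≤ m →
        P.l ρ (BPMain_s (c i) e ^ n * g * BPMain_s (c j) e' ^ m) ≠ 0 ∧
        P.D ρ (BPMain_s (c i) e ^ n * g * BPMain_s (c j) e' ^ m) = P.D ρ (BPMain_s (c i) e) ∧
        P.D ρ (BPMain_s (c i) e ^ n * g * BPMain_s (c j) e' ^ m)⁻¹ =
          P.D ρ (BPMain_s (c j) e')⁻¹ :=
      fun e e' => key3 h (BPMain_hyp h (hc j) e') (BPMain_hyp h (hc i) e) (hsep e e')
    choose Q hQ using k3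
    obtain ⟨R₁, hR₁⟩ : ∃ R₁ : ℕ, R₁ = Q true true + Q true false + Q false true + Q false false :=
      ⟨_, rfl⟩
    have hQR : ∀ e e', Q e e' ≤ R₁ := by
      intro e e'
      cases e <;> cases e' <;> omega
    refine ⟨R₁ + R₂ + 1, fun e n y hn hy => ?_⟩
    obtain ⟨κ, hκ, z, hz, hyz⟩ := hy
    have hz' : Val c R₂ w z := BPMain_anti (by omega) w z hz
    have hκ' : ∃ (e' : Bool) (m : ℕ), R₂ ≤ m ∧ c j ^ κ = BPMain_s (c j) e' ^ R₁ *
        BPMain_s (c j) e' ^ m := by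
      push_cast at hκ
      obtain ⟨k, hk | hk⟩ := Int.eq_nat_or_neg κ
      · have hkR : R₁ + R₂ + 1 ≤ k := by
          rw [hk, abs_of_nonneg (Int.natCast_nonneg k)] at hκ
          exact_mod_cast hκ
        refine ⟨true, k - R₁, by omega, ?_⟩
        rw [(BPMain_zpow (c j) k).1 hk, ← pow_add]
        congr 1
        omega
      · have hkR : R₁ + R₂ + 1 ≤ k := by
          rw [hk, abs_neg, abs_of_nonneg (Int.natCast_nonneg k)] at hκ
          exact_mod_cast hκ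
        refine ⟨false, k - R₁, by omega, ?_⟩
        rw [(BPMain_zpow (c j) k).2 hk, ← pow_add]
        congr 1
        omega
    obtain ⟨e', m, hm, hpow⟩ := hκ'
    obtain ⟨i1, i2⟩ := hR₂ e' m z hm hz'
    obtain ⟨q1, q2, q3⟩ := hQ e e' n R₁ ((hQR e e').trans (by omega)) (hQR e e')
    have hx : BPMain_s (c i) e ^ n * g * y =
        (BPMain_s (c i) e ^ n * g * BPMain_s (c j) e' ^ R₁) *
          (BPMain_s (c j) e' ^ m * g' * z) := by
      have hyz' : y = c j ^ κ * g' * z := hyz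
      rw [hyz', hpow]
      simp only [mul_assoc]
    have hne : P.D ρ (BPMain_s (c j) e' ^ m * g' * z) ≠
        P.D ρ (BPMain_s (c i) e ^ n * g * BPMain_s (c j) e' ^ R₁)⁻¹ := by
      rw [i1, q3]
      exact (BPMain_hyp h (hc j) e').2
    obtain ⟨f1, f2, -⟩ := h.far q1 (by omega) hne
    rw [hx]
    refine ⟨f2.trans q2, ?_⟩
    rw [f1]
    omega

theorem bp [Nonempty ι] (h : Geo P ρ G₀ X) {I : Type u} {c : I → G}
    (hc : ∀ i, ∃ w, P.Hyp ρ w ∧ ∃ m : ℤ, m ≠ 0 ∧ c i ^ m = w)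
    (hcomm : ∀ i j g (k l : ℤ), k ≠ 0 → g * c j ^ k * g⁻¹ = c i ^ l →
      i = j ∧ g ∈ Subgroup.zpowers (c i)) : BP c := by
  have hc' : ∀ i, P.Hyp ρ (c i) := by
    intro i
    obtain ⟨w, hw, m, -, hm⟩ := hc i
    exact root_hyp' h hw hm
  intro w hw hred g
  rcases w with _ | ⟨⟨i, g₁⟩, w'⟩
  · exact absurd rfl hw
  · obtain ⟨R, hR⟩ := bp_main h hc' hcomm w' i g₁ hred (P.l ρ g + 1)
    refine ⟨R, fun x hx hxg => ?_⟩
    obtain ⟨κ, hκ, y, hy, e⟩ := hx
    have h1 := (hR κ y hκ hy).2.2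
    have e' : x = c i ^ κ * g₁ * y := e
    rw [← e', hxg] at h1
    omega

end RNt
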