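import Pool.Agent.RNt.Def

set_option autoImplicit false

/-!
# RNt/Chi2: the character of `A` with values in a divisible torsion group

`exists_chi2`.  Call a natural number `k` a unit if `(k : A)` is invertible.  As in
`RLin/Chi` (`exists_chi`) there is an additive map `ℓ : A → ℚ` with `ℓ 1 = 1`: embed `A` in its
divisible hull (`DivisibleHull`), a vector space over `ℚ`, and take a linear functional `φ` with
`φ 1 ≠ 0` (`Module.forall_dual_apply_eq_zero_iff`), divided by `φ 1`.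
Let `M` be the set of all `q : ℚ` such that there is `m : ℕ`, `m ≠ 0`, with `m * q` an integer and
such that no prime divisor of `m` is a unit.  `M` is a subgroup of `ℚ` (take the product of the two
numbers `m`) which contains `ℤ`.  Let `T = ULift (ℚ ⧸ M)` (or `ULift ℚ` modulo a subgroup) and let
`χ a` be the class of `ℓ a`.  `χ 1 = 0`.
* `div`: `ℚ` is divisible.
* `tor`: let `q : ℚ`, `d = q.den`.  Let `k` be the largest divisor of `d` which is a unit, and
  `d = k * m`.  No prime divisor `p` of `m` is a unit: otherwise `k * p` divides `d` and it is a unit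
  (`Nat.cast_mul`, `IsUnit.mul`).  So `k * q ∈ M` as `m * (k * q) = q.num`.
* purity: let `χ a = 0`, `n ≠ 0`, `n • a = k • 1`.  Then `n * ℓ a = k`; let `q = ℓ a = u / v` in lowest
  terms, `v = q.den`, `u = q.num`.  From `n • a = k • 1` and `n * u = k * v` we get
  `n • (v • a - u • 1) = 0`, so `v • a = u • 1` (`htf`).  Since `x * u + y * v = 1` for some integers
  `x, y`: `1 = v * (x • a + y • 1)` in `A`, and integers are central, so `v` is a unit, and so is every
  divisor of `v` (`isUnit_of_mul_isUnit_left` needs commutativity: if `v = p * r` then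
  `p * (r * b) = 1` and `(r * b) * p = 1` since `p` is central).  Since `ℓ a ∈ M` there is `m ≠ 0`
  without prime divisors which are units and `m * q ∈ ℤ`, so `v ∣ m` (`Rat.den_dvd` or
  `Rat.mul_den_eq_num` and coprimality).  If `v ≠ 1` it has a prime divisor, which is a unit and
  divides `m`, a contradiction.  So `v = 1` and `a = u • 1`.

`exists_sec`.  Choose a representative `r q` of every class of `T` modulo the range of `χ`
(`Quotient.out`), so `q - r q ∈ range χ` and `r (q + χ a) = r q`; choose `s₀ q` with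
`χ (s₀ q) = q - r q` and put `s q = s₀ q - s₀ 0`.  Then
`χ (a + s q - s (q + χ a)) = χ a + (q - r q) - (q + χ a - r q) = 0`.
-/

universe u

namespace RNt

private def Chi2_M (A : Type u) [Ring A] : AddSubgroup ℚ where
  carrier := {q | ∃ m : ℕ, m ≠ 0 ∧ (∀ p : ℕ, p.Prime → p ∣ m → ¬ IsUnit (p : A)) ∧
    ∃ z : ℤ, (m : ℚ) * q = z}
  zero_mem' := ⟨1, one_ne_zero, fun p hp h => absurd (Nat.dvd_one.1 h) hp.one_lt.ne', 0, by simp⟩
  add_mem' := by
    rintro a b ⟨m, hm, hm', z, hz⟩ ⟨n, hn, hn', w, hw⟩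
    refine ⟨m * n, mul_ne_zero hm hn, fun p hp h => ?_, n * z + m * w, ?_⟩
    · rcases (Nat.Prime.dvd_mul hp).1 h with h | h
      · exact hm' p hp h
      · exact hn' p hp h
    · push_cast
      rw [← hz, ← hw]
      ring
  neg_mem' := by
    rintro a ⟨m, hm, hm', z, hz⟩
    refine ⟨m, hm, hm', -z, ?_⟩
    push_cast
    rw [← hz]
    ring

private theorem Chi2_split {A : Type u} [Ring A] (d : ℕ) (hd : d ≠ 0) :
    ∃ k m : ℕ, d = k * m ∧ IsUnit (k : A) ∧ m ≠ 0 ∧ k ≠ 0 ∧
      ∀ p : ℕ, p.Prime → p ∣ m → ¬ IsUnit (p : A) := by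
  classical
  let P : ℕ → Prop := fun k => k ∣ d ∧ IsUnit (k : A)
  have h1 : P 1 := ⟨one_dvd d, by simp⟩
  have hb : ∀ k, P k → k ≤ d := fun k hk => Nat.le_of_dvd (Nat.pos_of_ne_zero hd) hk.1
  let k := Nat.findGreatest P d
  have hk : P k := Nat.findGreatest_spec (hb 1 h1) h1
  obtain ⟨m, hm⟩ := hk.1
  have hk0 : k ≠ 0 := by
    rintro h
    apply hd
    rw [hm, h, zero_mul]
  have hm0 : m ≠ 0 := by
    rintro h
    apply hd
    rw [hm, h, mul_zero]
  refine ⟨k, m, hm, hk.2, hm0, hk0, fun p hp hpm hu => ?_⟩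
  have h2 : P (k * p) := by
    refine ⟨?_, ?_⟩
    · rw [hm]
      exact mul_dvd_mul_left k hpm
    · rw [Nat.cast_mul]
      exact hk.2.mul hu
  have h3 : k * p ≤ k := Nat.le_findGreatest (hb _ h2) h2
  have h4 : k * 1 < k * p := Nat.mul_lt_mul_of_pos_left hp.one_lt (Nat.pos_of_ne_zero hk0)
  omega

private theorem Chi2_unit {A : Type u} [Ring A] {v p : ℕ} {b : A} (h : v • b = 1) (hp : p ∣ v) :
    IsUnit (p : A) := by
  obtain ⟨r, rfl⟩ := hp
  have h1 : (p : A) * ((r : A) * b) = 1 := by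
    rw [← mul_assoc, ← Nat.cast_mul, ← nsmul_eq_mul]
    exact h
  have h2 : ((r : A) * b) * (p : A) = 1 := by
    rw [← (Nat.cast_commute p ((r : A) * b)).eq]
    exact h1
  exact ⟨⟨(p : A), (r : A) * b, h1, h2⟩, rfl⟩

theorem exists_chi2 {A : Type u} [Ring A] [Nontrivial A]
    (htf : ∀ (n : ℕ) (a : A), n ≠ 0 → n • a = 0 → a = 0) :
    ∃ (T : Type u) (_ : AddCommGroup T) (χ : A →+ T), DT A T ∧ χ 1 = 0 ∧
      ∀ (n : ℕ) (k : ℤ) (a : A), χ a = 0 → n ≠ 0 → n • a = k • (1 : A) →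
        ∃ k' : ℤ, a = k' • (1 : A) := by
  classical
  have : IsAddTorsionFree A := by
    refine ⟨fun n hn x y hxy => ?_⟩
    have h1 : n • (x - y) = 0 := by
      rw [smul_sub]
      exact sub_eq_zero.2 hxy
    exact sub_eq_zero.1 (htf n _ hn h1)
  let V := DivisibleHull A
  let ι : A →+ V := DivisibleHull.coeAddMonoidHom A
  have hι : Function.Injective ι := DivisibleHull.coe_injective
  have hιe : ι 1 ≠ 0 := by
    intro h
    apply one_ne_zero (α := A)
    apply hι
    rw [h, map_zero]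
  obtain ⟨φ, hφ⟩ : ∃ φ : Module.Dual ℚ V, φ (ι 1) ≠ 0 := by
    by_contra hcon
    push Not at hcon
    exact hιe ((Module.forall_dual_apply_eq_zero_iff ℚ (ι 1)).1 hcon)
  let r : V →ₗ[ℚ] ℚ := (φ (ι 1))⁻¹ • φ
  have hr : r (ι 1) = 1 := by
    show (φ (ι 1))⁻¹ * φ (ι 1) = 1
    exact inv_mul_cancel₀ hφ
  let ℓ : A →+ ℚ := (r : V →+ ℚ).comp ι
  have hℓ1 : ℓ 1 = 1 := hr
  let T := ULift.{u} (ℚ ⧸ Chi2_M A)
  let up : (ℚ ⧸ Chi2_M A) ≃+ T := AddEquiv.ulift.symm
  let χ : A →+ T := (up : (ℚ ⧸ Chi2_M A) →+ T).comp ((QuotientAddGroup.mk' (Chi2_M A)).comp ℓ)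
  have hχ : ∀ a, χ a = 0 ↔ ℓ a ∈ Chi2_M A := by
    intro a
    have h1 : χ a = up (QuotientAddGroup.mk' (Chi2_M A) (ℓ a)) := rfl
    rw [h1, map_eq_zero_iff up up.injective]
    exact QuotientAddGroup.eq_zero_iff _
  refine ⟨T, inferInstance, χ, ⟨?_, ?_⟩, ?_, ?_⟩
  · intro n d hn
    obtain ⟨q, hq⟩ := QuotientAddGroup.mk_surjective (s := Chi2_M A) d.down
    refine ⟨⟨(QuotientAddGroup.mk (q / n) : ℚ ⧸ Chi2_M A)⟩, ?_⟩
    apply ULift.down_injective
    rw [ULift.smul_down, ← hq, ← QuotientAddGroup.mk_nsmul]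
    congr 1
    rw [nsmul_eq_mul]
    field_simp
  · intro d
    obtain ⟨q, hq⟩ := QuotientAddGroup.mk_surjective (s := Chi2_M A) d.down
    obtain ⟨k, m, hkm, hku, hm0, hk0, hm⟩ := Chi2_split (A := A) q.den q.den_ne_zero
    refine ⟨k, hk0, hku, ?_⟩
    apply ULift.down_injective
    rw [ULift.smul_down, ← hq, ← QuotientAddGroup.mk_nsmul]
    refine (QuotientAddGroup.eq_zero_iff _).2 ⟨m, hm0, hm, q.num, ?_⟩
    rw [nsmul_eq_mul, ← Rat.den_mul_eq_num, hkm]
    push_cast
    ring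
  · rw [hχ, hℓ1]
    exact ⟨1, one_ne_zero, fun p hp h => absurd (Nat.dvd_one.1 h) hp.one_lt.ne', 1, by simp⟩
  · intro n k a ha hn hnk
    rw [hχ] at ha
    obtain ⟨m, hm0, hm, z, hz⟩ := ha
    set q := ℓ a with hq
    have h1 : (n : ℚ) * q = k := by
      have h2 := congrArg ℓ hnk
      rw [map_nsmul, map_zsmul, hℓ1, nsmul_eq_mul, zsmul_eq_mul, mul_one] at h2
      exact h2
    have h2 : (q.den : ℚ) * q = q.num := Rat.den_mul_eq_num q
    -- n * num = k * den
    have h3 : (n : ℤ) * q.num = k * q.den := by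
      have h4 : (n : ℚ) * q.num = k * q.den := by
        rw [← h2, ← h1]
        ring
      exact_mod_cast h4
    -- den • a = num • 1
    have h4 : (q.den : ℤ) • a = q.num • (1 : A) := by
      have hnk' : (n : ℤ) • a = k • (1 : A) := by
        rw [natCast_zsmul]
        exact hnk
      have h6 : (n : ℤ) • ((q.den : ℤ) • a) = (n : ℤ) • (q.num • (1 : A)) := by
        rw [smul_smul, smul_smul, h3, mul_comm (n : ℤ) (q.den : ℤ), mul_smul (q.den : ℤ) (n : ℤ) a,
          hnk', smul_smul, mul_comm (q.den : ℤ) k]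
      have h5 : n • ((q.den : ℤ) • a - q.num • (1 : A)) = 0 := by
        rw [← natCast_zsmul, smul_sub, h6, sub_self]
      exact sub_eq_zero.1 (htf n _ hn h5)
    -- Bezout
    have h5 : ∃ b : A, q.den • b = 1 := by
      have hco : IsCoprime q.num (q.den : ℤ) := by
        rw [Int.isCoprime_iff_gcd_eq_one, Int.gcd_eq_natAbs, Int.natAbs_natCast]
        exact q.reduced
      obtain ⟨x, y, hxy⟩ := hco
      refine ⟨x • a + y • (1 : A), ?_⟩
      rw [smul_add, ← natCast_zsmul, ← natCast_zsmul, smul_smul, smul_smul,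
        mul_comm (q.den : ℤ) x, ← smul_smul, h4, smul_smul, ← add_smul,
        mul_comm (q.den : ℤ) y, hxy, one_smul]
    obtain ⟨b, hb⟩ := h5
    -- den ∣ m
    have h6 : (q.den : ℤ) ∣ m := by
      have h7 : (m : ℤ) * q.num = z * q.den := by
        have h8 : (m : ℚ) * q.num = z * q.den := by
          rw [← h2, ← hz]
          ring
        exact_mod_cast h8
      have h8 : (q.den : ℤ) ∣ m * q.num := ⟨z, by rw [h7, mul_comm]⟩
      have hco : IsCoprime (q.den : ℤ) q.num := by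
        rw [isCoprime_comm, Int.isCoprime_iff_gcd_eq_one, Int.gcd_eq_natAbs, Int.natAbs_natCast]
        exact q.reduced
      exact hco.dvd_of_dvd_mul_right h8
    have h7 : q.den ∣ m := by exact_mod_cast h6
    have h8 : q.den = 1 := by
      by_contra hne
      obtain ⟨p, hp, hpd⟩ := Nat.exists_prime_and_dvd hne
      exact hm p hp (hpd.trans h7) (Chi2_unit hb hpd)
    refine ⟨q.num, ?_⟩
    rw [← h4, h8, Nat.cast_one, one_smul]

theorem exists_sec {A T : Type u} [AddCommGroup A] [AddCommGroup T] (χ : A →+ T) :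
    ∃ s : T → A, s 0 = 0 ∧ ∀ q a, χ (a + s q - s (q + χ a)) = 0 := by
  classical
  let π : T → T ⧸ χ.range := QuotientAddGroup.mk
  let r : T → T := fun q => (π q).out
  have hr : ∀ q, ∃ a, χ a = q - r q := by
    intro q
    have h : π (r q) = π q := Quotient.out_eq _
    have h2 : -(r q) + q ∈ χ.range := QuotientAddGroup.eq.1 h
    obtain ⟨a, ha⟩ := h2
    exact ⟨a, by rw [ha]; abel⟩
  have hr2 : ∀ q a, r (q + χ a) = r q := by
    intro q a
    have h : π (q + χ a) = π q := by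
      apply QuotientAddGroup.eq.2
      exact ⟨-a, by rw [map_neg]; abel⟩
    show (π (q + χ a)).out = (π q).out
    rw [h]
  choose s₀ hs₀ using hr
  refine ⟨fun q => s₀ q - s₀ 0, sub_self _, fun q a => ?_⟩
  have h1 : a + (s₀ q - s₀ 0) - (s₀ (q + χ a) - s₀ 0) = a + s₀ q - s₀ (q + χ a) := by abel
  show χ (a + (s₀ q - s₀ 0) - (s₀ (q + χ a) - s₀ 0)) = 0
  rw [h1, map_sub, map_add, hs₀, hs₀, hr2]
  abel

end RNt
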