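import Pool.Agent.RLin.StepG

set_option autoImplicit false

/-!
# RNt: a normal subgroup of the free `A`-group which is linear of degree two

Let `A` be a ring whose additive group is torsion-free and let `G` be the free `A`-group on a set.
Then `G` has a normal subgroup `N` which contains the free generators, such that `G / N` is an
abelian torsion group in which all orders are invertible in `A`, and such that `N` embeds in an
ultrapower of the free group; hence `N` is linear of degree two over a field of characteristic zero.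
If `ℤ ⬝ 1` is pure in `A` then `N = G`.

The proof goes up the tower `tow` of `Pool/Agent/RLin`.  This file contains the definitions.
-/

universe u

namespace RNt

open RLin

section

variable {G : Type u} [Group G] {I : Type u}

/-- `Val c R [(i₁, g₁), …, (iₖ, gₖ)] x` says that `x = c i₁ ^ κ₁ * g₁ * … * c iₖ ^ κₖ * gₖ` with
exponents `κ₁, …, κₖ` of absolute value at least `R` -/
def Val (c : I → G) (R : ℕ) : List (I × G) → G → Prop
  | [], x => x = 1
  | p :: w, x => ∃ κ : ℤ, (R : ℤ) ≤ |κ| ∧ ∃ y, Val c R w y ∧ x = c p.1 ^ κ * p.2 * y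

/-- the word `[(i₁, g₁), …, (iₖ, gₖ)]` is reduced: if `iⱼ = iⱼ₊₁` then `gⱼ` is not a power of
`c iⱼ` -/
def Red (c : I → G) : List (I × G) → Prop
  | [] => True
  | [_] => True
  | p :: q :: w => (p.1 = q.1 → p.2 ∉ Subgroup.zpowers (c p.1)) ∧ Red c (q :: w)

/-- the big powers property of the family `c` of elements of `G` -/
def BP (c : I → G) : Prop :=
  ∀ w : List (I × G), w ≠ [] → Red c w → ∀ g : G, ∃ R : ℕ, ∀ x, Val c R w x → x ≠ g

/-- The finite pieces of the part `N` of `G` embed in `F`. -/
def LE (F : Type u) [Group F] (N : G → Prop) : Prop :=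
  ∀ S : Finset G, (∀ a ∈ S, N a) → ∃ f : G → F, f 1 = 1 ∧
    (∀ a ∈ S, ∀ b ∈ S, f (a * b) = f a * f b) ∧ ∀ a ∈ S, a ≠ 1 → f a ≠ 1

end

/-- `D` is divisible and every element has an order which is invertible in the ring `A`. -/
structure DT (A : Type u) [Ring A] (D : Type u) [AddCommGroup D] : Prop where
  div : ∀ (n : ℕ) (d : D), n ≠ 0 → ∃ d', n • d' = d
  tor : ∀ d : D, ∃ k : ℕ, k ≠ 0 ∧ IsUnit (k : A) ∧ k • d = 0

/-- The twisting homomorphism.  `H = Step A c` acts on `X × *G`, where `*G` is the group of germs of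
functions `S → G`, by `h ⬝ (x, y) = (x + lam h, F h x * y)`. -/
structure Twist {A : Type u} [Ring A] {G : Type u} [Group G] {I : Type u} (c : I → G)
    {X : Type u} [AddCommGroup X] (v : I → A → X) {S : Type u} (U : Filter S)
    (κ : I → A → X → S → ℤ) (lam : Step A c → X) (F : Step A c → X → S → G) : Prop where
  lam_mul : ∀ h h', lam (h * h') = lam h + lam h'
  lam_G : ∀ g, lam (inG A c g) = 0
  lam_B : ∀ i a, lam (inB c i a) = v i a
  F_mul : ∀ h h' x, ∀ᶠ s in U, F (h * h') x s = F h (x + lam h') s * F h' x s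
  F_G : ∀ g x, ∀ᶠ s in U, F (inG A c g) x s = g
  F_B : ∀ i a x, ∀ᶠ s in U, F (inB c i a) x s = c i ^ κ i a x s

end RNt
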