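import Pool.Agent.RNt.Def

set_option autoImplicit false

/-!
# RNt/Delta: the homomorphism to `D` and the twisting homomorphism

`exists_psi`: `step_lift` with `H = Multiplicative D`.

`twist_delta`: let `Good h` be the statement
`∀ x, ∀ᶠ s in U, δ (F h x s) = Ψ h + η x - η (x + lam h)`.  It holds for `h = inG g` (`lam h = 0`) and
for `h = inB i a` by `k4` (`δ (c i ^ k) = k • δ (c i)`), and it is preserved by products (`F_mul`,
`lam_mul`) and by inverses: `F (h⁻¹ * h) x s = F h⁻¹ (x + lam h) s * F h x s` and `F 1 x s = 1`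
almost everywhere (`F (inG 1)`), `lam h⁻¹ = - lam h`, so
`δ (F h⁻¹ y s) = - δ (F h (y - lam h) s)`.  `Subgroup.closure_induction` with `step_gen`.
-/

universe u

namespace RNt

open RLin

variable {A : Type u} [Ring A] {G : Type u} [Group G] {I : Type u} {c : I → G}

theorem exists_psi {D : Type u} [AddCommGroup D] (δ : G → D) (hδ : ∀ x y, δ (x * y) = δ x + δ y)
    (ψ : I → A →+ D) (hψ : ∀ i, ψ i 1 = δ (c i)) :
    ∃ Ψ : Step A c → D, (∀ h h', Ψ (h * h') = Ψ h + Ψ h') ∧ (∀ g, Ψ (inG A c g) = δ g) ∧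
      ∀ i a, Ψ (inB c i a) = ψ i a := by
  let φ : G →* Multiplicative D :=
    MonoidHom.mk' (fun g => Multiplicative.ofAdd (δ g)) fun x y => by
      rw [hδ, ofAdd_add]
  obtain ⟨Φ, h1, h2⟩ := step_lift c φ (fun i a => Multiplicative.ofAdd (ψ i a))
    (fun i a b => by rw [map_add, ofAdd_add]) (fun i => by
      change Multiplicative.ofAdd (ψ i 1) = Multiplicative.ofAdd (δ (c i))
      rw [hψ])
  refine ⟨fun h => Multiplicative.toAdd (Φ h), ?_, ?_, ?_⟩
  · intro h h'
    change Multiplicative.toAdd (Φ (h * h')) = Multiplicative.toAdd (Φ h * Φ h')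
    rw [map_mul]
  · intro g
    exact congrArg Multiplicative.toAdd (h1 g)
  · intro i a
    exact congrArg Multiplicative.toAdd (h2 i a)

variable {X : Type u} [AddCommGroup X] {v : I → A → X} {S : Type u} {U : Filter S}
variable {κ : I → A → X → S → ℤ} {lam : Step A c → X} {F : Step A c → X → S → G}

theorem twist_delta (ht : Twist c v U κ lam F) {D : Type u} [AddCommGroup D] (δ : G → D)
    (hδ : ∀ x y, δ (x * y) = δ x + δ y) (ψ : I → A →+ D) (η : X → D)
    (k4 : ∀ i a x, ∀ᶠ s in U, κ i a x s • δ (c i) = ψ i a + η x - η (x + v i a))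
    (Ψ : Step A c → D) (hΨ : ∀ h h', Ψ (h * h') = Ψ h + Ψ h') (hΨG : ∀ g, Ψ (inG A c g) = δ g)
    (hΨB : ∀ i a, Ψ (inB c i a) = ψ i a) (h : Step A c) (x : X) :
    ∀ᶠ s in U, δ (F h x s) = Ψ h + η x - η (x + lam h) := by
  have d1 : δ 1 = 0 := by
    have h1 := hδ 1 1
    rw [mul_one] at h1
    exact left_eq_add.1 h1
  have dz : ∀ (g : G) (k : ℤ), δ (g ^ k) = k • δ g := by
    intro g k
    let φ : G →* Multiplicative D :=
      MonoidHom.mk' (fun g => Multiplicative.ofAdd (δ g)) fun x y => by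
        rw [hδ, ofAdd_add]
    have h1 : φ (g ^ k) = (φ g) ^ k := map_zpow φ g k
    have h2 : Multiplicative.toAdd (φ (g ^ k)) = k • Multiplicative.toAdd (φ g) := by
      rw [h1, toAdd_zpow]
    exact h2
  have hG1 : inG A c 1 = 1 := map_one _
  have l1 : lam 1 = 0 := by
    rw [← hG1, ht.lam_G]
  have p1 : Ψ 1 = 0 := by
    rw [← hG1, hΨG, d1]
  have F1 : ∀ x, ∀ᶠ s in U, F (1 : Step A c) x s = 1 := by
    intro x
    have h1 := ht.F_G 1 x
    rw [hG1] at h1
    exact h1
  have hmem : h ∈ Subgroup.closure (Set.range (inG A c) ∪ {x | ∃ i a, x = inB c i a}) := by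
    rw [step_gen]
    exact Subgroup.mem_top h
  revert x
  induction hmem using Subgroup.closure_induction with
  | mem y hy =>
    intro x
    rcases hy with ⟨g, rfl⟩ | ⟨i, a, rfl⟩
    · filter_upwards [ht.F_G g x] with s hs
      rw [hs, hΨG, ht.lam_G, add_zero, add_sub_cancel_right]
    · filter_upwards [ht.F_B i a x, k4 i a x] with s hs hk
      rw [hs, dz, hk, hΨB, ht.lam_B]
  | one =>
    intro x
    filter_upwards [F1 x] with s hs
    rw [hs, d1, p1, l1, add_zero, zero_add, sub_self]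
  | mul y z _ _ hy hz =>
    intro x
    filter_upwards [ht.F_mul y z x, hy (x + lam z), hz x] with s hs h1 h2
    rw [hs, hδ, h1, h2, hΨ, ht.lam_mul, add_assoc x (lam z) (lam y), add_comm (lam z) (lam y)]
    abel
  | inv y _ hy =>
    intro x
    have l2 : lam y + lam y⁻¹ = 0 := by
      rw [← ht.lam_mul, mul_inv_cancel, l1]
    have p2 : Ψ y + Ψ y⁻¹ = 0 := by
      rw [← hΨ, mul_inv_cancel, p1]
    have h3 : ∀ᶠ s in U, F (y * y⁻¹) x s = 1 := by
      rw [mul_inv_cancel]
      exact F1 x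
    filter_upwards [ht.F_mul y y⁻¹ x, h3, hy (x + lam y⁻¹)] with s h4 h5 h6
    rw [h5] at h4
    have h7 : δ (F y (x + lam y⁻¹) s) + δ (F y⁻¹ x s) = 0 := by
      rw [← hδ, ← h4, d1]
    have h8 : x + lam y⁻¹ + lam y = x := by
      rw [add_assoc, add_comm (lam y⁻¹), l2, add_zero]
    rw [h8] at h6
    have h9 : Ψ y⁻¹ = - Ψ y := (neg_eq_of_add_eq_zero_right p2).symm
    have h10 : δ (F y⁻¹ x s) = - δ (F y (x + lam y⁻¹) s) :=
      (neg_eq_of_add_eq_zero_right h7).symm
    rw [h10, h6, h9]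
    abel

end RNt
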