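import Mathlib

set_option autoImplicit false

/-!
# RNt/Ext: extension of homomorphisms to divisible groups, and limits of torsion elements

`exists_ext`: divisible abelian groups are injective (`Module.Baer.of_divisible`,
`Module.Baer.extension_property_addMonoidHom`, `AddMonoid.divisibleByOfSMulRightSurj` or similar
names; look in `Mathlib/Algebra/Module/Injective.lean` and
`Mathlib/Algebra/Category/Grp/Injective.lean`).

`exists_lim`: let `d : D` be a torsion element, `L : C → S → ℤ` additive modulo the ultrafilter `U`.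
Then `s ↦ L a s • d` takes finitely many values (`L a s • d` depends only on `L a s` modulo the order
`k` of `d`), so there is a unique `m a : D` with `L a s • d = m a` for `U`-almost all `s`
(`Ultrafilter.eventually_exists_mem_iff` or `Ultrafilter.finite_biUnion_mem_iff`, or take the residue
`r` of `L a s` modulo `k`).  The map `m` is additive.
-/

universe u

namespace RNt

theorem exists_ext {D : Type u} [AddCommGroup D]
    (hD : ∀ (n : ℕ) (d : D), n ≠ 0 → ∃ d', n • d' = d) {A : Type u} [AddCommGroup A]
    (B : AddSubgroup A) (m : B →+ D) : ∃ ψ : A →+ D, ∀ b : B, ψ b = m b := by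
  classical
  have hZ : ∀ (n : ℤ) (d : D), n ≠ 0 → ∃ d' : D, n • d' = d := by
    intro n d hn
    have hn' : n.natAbs ≠ 0 := Int.natAbs_ne_zero.mpr hn
    rcases Int.natAbs_eq n with h | h
    · obtain ⟨d', hd'⟩ := hD n.natAbs d hn'
      refine ⟨d', ?_⟩
      rw [h, natCast_zsmul]
      exact hd'
    · obtain ⟨d', hd'⟩ := hD n.natAbs (-d) hn'
      refine ⟨d', ?_⟩
      rw [h, neg_zsmul, natCast_zsmul, hd', neg_neg]
  let _ : DivisibleBy D ℤ :=
    { div := fun d n => if h : n = 0 then 0 else (hZ n d h).choose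
      div_zero := fun d => by simp
      div_cancel := fun {n} d hn => by
        simp only [hn, dif_neg, not_false_eq_true]
        exact (hZ n d hn).choose_spec }
  obtain ⟨ψ, hψ⟩ := (Module.Baer.of_divisible D).extension_property_addMonoidHom
    B.subtype B.subtype_injective m
  exact ⟨ψ, fun b => DFunLike.congr_fun hψ b⟩

theorem exists_lim {C D S : Type u} [AddCommGroup C] [AddCommGroup D] (U : Ultrafilter S)
    (L : C → S → ℤ) (hL : ∀ a b, ∀ᶠ s in (U : Filter S), L (a + b) s = L a s + L b s)
    (d : D) {k : ℕ} (hk : k ≠ 0) (hd : k • d = 0) :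
    ∃ m : C →+ D, ∀ a, ∀ᶠ s in (U : Filter S), L a s • d = m a := by
  classical
  have hex : ∀ a : C, ∃ v : D, ∀ᶠ s in (U : Filter S), L a s • d = v := by
    intro a
    have h1 : ∀ᶠ s in (U : Filter S), ∃ r ∈ Finset.range k, L a s % (k : ℤ) = (r : ℤ) := by
      refine Filter.Eventually.of_forall fun s => ?_
      have hk' : (0 : ℤ) < k := by exact_mod_cast Nat.pos_of_ne_zero hk
      refine ⟨(L a s % (k : ℤ)).toNat, ?_, ?_⟩
      · rw [Finset.mem_range]
        have h2 := Int.emod_lt_of_pos (L a s) hk'
        have h3 := Int.emod_nonneg (L a s) (ne_of_gt hk')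
        omega
      · exact (Int.toNat_of_nonneg (Int.emod_nonneg (L a s) (ne_of_gt hk'))).symm
    have h2 : ∃ r ∈ (Finset.range k : Set ℕ), ∀ᶠ s in (U : Filter S),
        L a s % (k : ℤ) = (r : ℤ) := by
      have h3 := (Ultrafilter.eventually_exists_mem_iff (f := U)
        (is := (Finset.range k : Set ℕ)) (P := fun r s => L a s % (k : ℤ) = (r : ℤ))
        (Finset.finite_toSet _)).mp (by simpa using h1)
      exact h3
    obtain ⟨r, -, hr⟩ := h2
    refine ⟨(r : ℤ) • d, hr.mono fun s hs => ?_⟩
    have h4 : L a s = (k : ℤ) * (L a s / (k : ℤ)) + (r : ℤ) := by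
      rw [← hs]
      exact (Int.mul_ediv_add_emod _ _).symm
    have h5 : ((k : ℤ) * (L a s / (k : ℤ))) • d = 0 := by
      rw [mul_comm, mul_zsmul, natCast_zsmul, hd, zsmul_zero]
    rw [h4, add_zsmul, h5, zero_add]
  choose m hm using hex
  refine ⟨AddMonoidHom.mk' m fun a b => ?_, hm⟩
  obtain ⟨s, h1, h2, h3, h4⟩ := ((hm (a + b)).and ((hm a).and ((hm b).and (hL a b)))).exists
  rw [← h1, ← h2, ← h3, h4, add_zsmul]

end RNt
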