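import Mathlib

/-!
# Finite index overgroups of linear groups are linear

If `N` is a subgroup of finite index of `H` and `N` embeds in `GL_m(K)`, `m ≥ 1`, then `H`
embeds in `GL_{m [H : N]}(K)` (induced representation, written with monomial matrices of blocks).
-/

namespace RNt

open Matrix

universe u v

variable {H : Type u} [Group H]

/-- the cocycle `s(hq)⁻¹ h s(q)` of the transversal `s`. -/
noncomputable def coc (N : Subgroup H) (h : H) (q : H ⧸ N) : N :=
  ⟨(h • q).out⁻¹ * (h * q.out), by
    have h1 : ((h • q).out : H ⧸ N) = ((h * q.out : H) : H ⧸ N) := by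
      rw [QuotientGroup.out_eq']
      conv_lhs => rw [← QuotientGroup.out_eq' q]
      rfl
    exact QuotientGroup.eq.mp h1⟩

theorem coc_mul (N : Subgroup H) (h k : H) (q : H ⧸ N) :
    coc N (h * k) q = coc N h (k • q) * coc N k q := by
  apply Subtype.ext
  simp only [coc, Subgroup.coe_mul, mul_smul]
  group

/-- the block monomial matrix of `h`. -/
noncomputable def indMat (N : Subgroup H) {K : Type v} [Field K] {m : ℕ}
    (φ : N →* Matrix.GeneralLinearGroup (Fin m) K) (h : H) :
    Matrix ((H ⧸ N) × Fin m) ((H ⧸ N) × Fin m) K :=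
  open Classical in
  fun a b => if a.1 = h • b.1 then (φ (coc N h b.1) : Matrix (Fin m) (Fin m) K) a.2 b.2 else 0

theorem coc_one (N : Subgroup H) (q : H ⧸ N) : coc N 1 q = 1 := by
  apply Subtype.ext
  simp [coc]

theorem indMat_one (N : Subgroup H) {K : Type v} [Field K] {m : ℕ}
    (φ : N →* Matrix.GeneralLinearGroup (Fin m) K) [DecidableEq (H ⧸ N)] :
    indMat N φ 1 = 1 := by
  ext a b
  obtain ⟨a1, a2⟩ := a
  obtain ⟨b1, b2⟩ := b
  simp only [indMat, one_smul, coc_one, map_one, Units.val_one]
  by_cases h1 : a1 = b1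
  · subst h1
    by_cases h2 : a2 = b2
    · subst h2; simp
    · simp [h2]
  · simp [h1]

theorem indMat_mul (N : Subgroup H) {K : Type v} [Field K] {m : ℕ} [Fintype (H ⧸ N)]
    (φ : N →* Matrix.GeneralLinearGroup (Fin m) K) (h k : H) :
    indMat N φ (h * k) = indMat N φ h * indMat N φ k := by
  classical
  ext a b
  obtain ⟨a1, a2⟩ := a
  obtain ⟨b1, b2⟩ := b
  rw [Matrix.mul_apply, Fintype.sum_prod_type]
  rw [Finset.sum_eq_single (k • b1)]
  · simp only [indMat, mul_smul, coc_mul, map_mul, Units.val_mul, if_true]
    by_cases h1 : a1 = h • k • b1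
    · simp only [h1, if_true, Matrix.mul_apply]
    · simp [h1]
  · intro c _ hc
    apply Finset.sum_eq_zero
    intro j _
    simp [indMat, hc]
  · intro hx
    exact absurd (Finset.mem_univ _) hx

/-- **A finite index overgroup of a linear group of degree `m` is linear of degree `m · index`.** -/
theorem fin_index_linear {H : Type u} [Group H] (N : Subgroup H) [hN : N.FiniteIndex]
    {K : Type v} [Field K] {m : ℕ} (hm : 0 < m)
    (φ : N →* Matrix.GeneralLinearGroup (Fin m) K) (hφ : Function.Injective φ) :
    ∃ θ : H →* Matrix.GeneralLinearGroup (Fin (m * N.index)) K, Function.Injective θ := by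
  classical
  haveI : Finite (H ⧸ N) := Subgroup.finite_quotient_of_finiteIndex
  haveI : Fintype (H ⧸ N) := Fintype.ofFinite _
  let θ0 : H →* Matrix ((H ⧸ N) × Fin m) ((H ⧸ N) × Fin m) K :=
    { toFun := indMat N φ
      map_one' := indMat_one N φ
      map_mul' := indMat_mul N φ }
  have hinj0 : Function.Injective θ0 := by
    rw [injective_iff_map_eq_one]
    intro h hh
    have hh' : indMat N φ h = 1 := hh
    let q : H ⧸ N := ((1 : H) : H ⧸ N)
    have hq : h • q = q := by
      by_contra hne
      have h1 := congrFun (congrFun hh' (q, (⟨0, hm⟩ : Fin m))) (q, (⟨0, hm⟩ : Fin m))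
      simp only [indMat, Matrix.one_apply_eq] at h1
      rw [if_neg (fun h2 => hne h2.symm)] at h1
      exact zero_ne_one h1
    have hc : coc N h q = 1 := by
      apply hφ
      rw [map_one]
      apply Units.ext
      ext i j
      have h1 := congrFun (congrFun hh' (q, i)) (q, j)
      simp only [indMat] at h1
      rw [if_pos hq.symm] at h1
      rw [h1]
      by_cases hij : i = j
      · subst hij; simp
      · simp [hij]
    have h2 : (h • q).out⁻¹ * (h * q.out) = 1 := congrArg Subtype.val hc
    rw [hq] at h2
    have h3 : h * q.out = q.out := by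
      have := congrArg (fun z => q.out * z) h2
      simpa [mul_assoc] using this
    simpa using h3
  have hcard : Fintype.card ((H ⧸ N) × Fin m) = m * N.index := by
    rw [Fintype.card_prod, Fintype.card_fin, mul_comm]
    congr 1
    rw [Subgroup.index, Nat.card_eq_fintype_card]
  let e : ((H ⧸ N) × Fin m) ≃ Fin (m * N.index) := Fintype.equivFinOfCardEq hcard
  let R := (Matrix.reindexAlgEquiv K K e)
  let θ1 : H →* Matrix (Fin (m * N.index)) (Fin (m * N.index)) K :=
    (R : Matrix ((H ⧸ N) × Fin m) ((H ⧸ N) × Fin m) K →* _).comp θ0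
  refine ⟨θ1.toHomUnits, ?_⟩
  intro a b hab
  apply hinj0
  apply R.injective
  have := congrArg Units.val hab
  simpa [θ1] using this

end RNt
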