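import Pool.Agent.RNt.Def

set_option autoImplicit false

/-!
# RNt/Ultra: embeddings in ultrapowers

`exists_ultra`: `S` = finite subsets of `G` which are contained in `N` (or `Finset N`), `U` an
ultrafilter containing `Filter.atTop` (`Ultrafilter.of`); for `s : S` let `f_s` be the map of `LE`
for the finite set `s`.  `θ a` is the germ of `s ↦ f_s a`.  For almost all `s` the set `s` contains
`a, b`, so `θ` is multiplicative, and `θ a ≠ 1` for `a ≠ 1` (`Filter.Germ.coe_eq`, `U` is not the
trivial filter).

`ultra_gl`: `K' = (U : Filter S).Germ K` is a field (`Filter.Germ.instField` or similar in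
`Mathlib/Order/Filter/FilterProduct.lean`) of characteristic zero.  The germ of `s ↦ x s` is sent to
the matrix with the entries `germ (s ↦ ρ (x s) j k)`; this is a well-defined injective monoid
homomorphism to `Matrix (Fin 2) (Fin 2) K'`; it gives a homomorphism to the units
(`MonoidHom.toHomUnits`).
-/

universe u

namespace RNt

theorem exists_ultra {G : Type u} [Group G] (N : Subgroup G) {F : Type u} [Group F]
    (h : LE F fun g => g ∈ N) :
    ∃ (S : Type u) (U : Ultrafilter S) (θ : N →* (U : Filter S).Germ F),
      Function.Injective θ := by
  classical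
  have h' : ∀ s : Finset N, ∃ f : G → F, f 1 = 1 ∧
      (∀ a ∈ s, ∀ b ∈ s, f ((a : G) * b) = f a * f b) ∧ ∀ a ∈ s, a ≠ 1 → f (a : G) ≠ 1 := by
    intro s
    obtain ⟨f, h1, h2, h3⟩ := h (s.image fun a : N => (a : G)) (by
      intro a ha
      obtain ⟨b, _, rfl⟩ := Finset.mem_image.mp ha
      exact b.2)
    refine ⟨f, h1, fun a ha b hb => h2 _ (Finset.mem_image_of_mem _ ha) _
      (Finset.mem_image_of_mem _ hb), fun a ha hne => h3 _ (Finset.mem_image_of_mem _ ha) ?_⟩
    intro h4
    exact hne (Subtype.ext h4)
  choose f _ hf2 hf3 using h'
  let U : Ultrafilter (Finset N) := Ultrafilter.of Filter.atTop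
  have hU : ∀ a : N, ∀ᶠ s in (U : Filter (Finset N)), a ∈ s := by
    intro a
    have h1 : ∀ᶠ s in (Filter.atTop : Filter (Finset N)), a ∈ s := by
      filter_upwards [Filter.eventually_ge_atTop ({a} : Finset N)] with s hs
      exact hs (Finset.mem_singleton_self a)
    exact Ultrafilter.of_le _ h1
  let θ : N →* (U : Filter (Finset N)).Germ F :=
    MonoidHom.mk' (fun a => ((fun s => f s (a : G) : Finset N → F) : (U : Filter (Finset N)).Germ F))
      (by
        intro a b
        show ((fun s => f s ((a * b : N) : G) : Finset N → F) : (U : Filter (Finset N)).Germ F) =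
          ((fun s => f s (a : G) : Finset N → F) : (U : Filter (Finset N)).Germ F) *
            ((fun s => f s (b : G) : Finset N → F) : (U : Filter (Finset N)).Germ F)
        rw [← Filter.Germ.coe_mul, Filter.Germ.coe_eq]
        filter_upwards [hU a, hU b] with s ha hb
        exact hf2 s a ha b hb)
  refine ⟨Finset N, U, θ, ?_⟩
  rw [injective_iff_map_eq_one]
  intro a ha
  by_contra hne
  have h1 : ((fun s => f s (a : G) : Finset N → F) : (U : Filter (Finset N)).Germ F) =
      ((1 : Finset N → F) : (U : Filter (Finset N)).Germ F) := ha
  rw [Filter.Germ.coe_eq] at h1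
  obtain ⟨s, hs1, hs2⟩ := (h1.and (hU a)).exists
  exact hf3 s a hs2 hne hs1

theorem ultra_gl {S : Type u} (U : Ultrafilter S) {F : Type u} [Group F] {K : Type u} [Field K]
    [CharZero K] (ρ : F →* Matrix (Fin 2) (Fin 2) K) (hρ : Function.Injective ρ) :
    ∃ (K' : Type u) (_ : Field K') (_ : CharZero K')
      (θ : (U : Filter S).Germ F →* Matrix.GeneralLinearGroup (Fin 2) K'),
      Function.Injective θ := by
  have hchar : CharZero ((U : Filter S).Germ K) := by
    constructor
    intro m n hmn
    have h1 : (((fun _ => (m : K)) : S → K) : (U : Filter S).Germ K) =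
        (((fun _ => (n : K)) : S → K) : (U : Filter S).Germ K) := by
      rw [Filter.Germ.natCast_def, Filter.Germ.natCast_def]
      exact hmn
    rw [Filter.Germ.coe_eq] at h1
    obtain ⟨s, hs⟩ := h1.exists
    exact Nat.cast_injective hs
  let φ : (U : Filter S).Germ F →* Matrix (Fin 2) (Fin 2) ((U : Filter S).Germ K) :=
    { toFun := fun x => Matrix.of fun j k => x.map fun y => ρ y j k
      map_one' := by
        ext j k
        show Filter.Germ.map (fun y => ρ y j k) (1 : (U : Filter S).Germ F) = _
        rw [← Filter.Germ.coe_one, Filter.Germ.map_coe]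
        have h1 : (fun y => ρ y j k) ∘ (1 : S → F) =
            fun _ => (1 : Matrix (Fin 2) (Fin 2) K) j k := by
          funext s
          show ρ 1 j k = _
          rw [map_one]
        rw [h1, Matrix.one_apply, Matrix.one_apply]
        split_ifs
        · rfl
        · rfl
      map_mul' := by
        intro x y
        induction x using Filter.Germ.inductionOn with
        | _ f =>
          induction y using Filter.Germ.inductionOn with
          | _ g =>
            ext j k
            rw [Matrix.mul_apply, Fin.sum_univ_two]
            show Filter.Germ.map (fun y => ρ y j k)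
              ((f : (U : Filter S).Germ F) * (g : (U : Filter S).Germ F)) =
              Filter.Germ.map (fun y => ρ y j 0) (f : (U : Filter S).Germ F) *
                Filter.Germ.map (fun y => ρ y 0 k) (g : (U : Filter S).Germ F) +
              Filter.Germ.map (fun y => ρ y j 1) (f : (U : Filter S).Germ F) *
                Filter.Germ.map (fun y => ρ y 1 k) (g : (U : Filter S).Germ F)
            rw [← Filter.Germ.coe_mul, Filter.Germ.map_coe, Filter.Germ.map_coe,
              Filter.Germ.map_coe, Filter.Germ.map_coe, Filter.Germ.map_coe,
              ← Filter.Germ.coe_mul, ← Filter.Germ.coe_mul, ← Filter.Germ.coe_add]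
            congr 1
            funext s
            show ρ (f s * g s) j k = ρ (f s) j 0 * ρ (g s) 0 k + ρ (f s) j 1 * ρ (g s) 1 k
            rw [map_mul, Matrix.mul_apply, Fin.sum_univ_two] }
  have hφ : Function.Injective φ := by
    intro x y hxy
    induction x using Filter.Germ.inductionOn with
    | _ f =>
      induction y using Filter.Germ.inductionOn with
      | _ g =>
        have h1 : ∀ j k, ∀ᶠ s in (U : Filter S), ρ (f s) j k = ρ (g s) j k := by
          intro j k
          have h2 := congrFun (congrFun hxy j) k
          have h3 : (((fun y => ρ y j k) ∘ f : S → K) : (U : Filter S).Germ K) =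
              (((fun y => ρ y j k) ∘ g : S → K) : (U : Filter S).Germ K) := h2
          rw [Filter.Germ.coe_eq] at h3
          exact h3
        rw [Filter.Germ.coe_eq]
        filter_upwards [h1 0 0, h1 0 1, h1 1 0, h1 1 1] with s h00 h01 h10 h11
        apply hρ
        ext j k
        fin_cases j <;> fin_cases k
        · exact h00
        · exact h01
        · exact h10
        · exact h11
  refine ⟨(U : Filter S).Germ K, inferInstance, hchar, φ.toHomUnits, ?_⟩
  intro x y hxy
  apply hφ
  exact congrArg Units.val hxy

end RNt
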