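import Pool.Agent.RNt.Limit
import Pool.Agent.RNt.Ultra
import Pool.Agent.RNt.IndRep

set_option autoImplicit false

/-!
# RNt/Final: the normal subgroup of the free `A`-group
-/

universe u

namespace RNt

open RLin

theorem le_mono {G : Type u} [Group G] {F : Type u} [Group F] {N N' : G → Prop}
    (h : ∀ g, N' g → N g) (hN : LE F N) : LE F N' :=
  fun S hS => hN S fun a ha => h a (hS a ha)

/-- a normal subgroup with abelian torsion quotient has finite index in every finitely generated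
subgroup -/
theorem fin_index {G : Type u} [Group G] (N : Subgroup G) [N.Normal]
    (h3 : ∀ g h : G, g * h * g⁻¹ * h⁻¹ ∈ N) (h4 : ∀ g : G, ∃ k : ℕ, k ≠ 0 ∧ g ^ k ∈ N)
    (B : Subgroup G) (hB : B.FG) : (N.subgroupOf B).FiniteIndex := by
  let q : B →* B ⧸ N.subgroupOf B := QuotientGroup.mk' _
  have hq : Function.Surjective q := QuotientGroup.mk'_surjective _
  let _ : CommGroup (B ⧸ N.subgroupOf B) :=
    { (inferInstance : Group (B ⧸ N.subgroupOf B)) with
      mul_comm := by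
        intro a b
        obtain ⟨x, rfl⟩ := hq a
        obtain ⟨y, rfl⟩ := hq b
        rw [← map_mul, ← map_mul]
        refine (QuotientGroup.eq (s := N.subgroupOf B)).2 ?_
        show ((x * y)⁻¹ * (y * x) : B) ∈ N.subgroupOf B
        rw [Subgroup.mem_subgroupOf]
        have h5 := h3 (y : G)⁻¹ (x : G)⁻¹
        have h6 : (((x * y)⁻¹ * (y * x) : B) : G) =
            (y : G)⁻¹ * (x : G)⁻¹ * (y : G)⁻¹⁻¹ * (x : G)⁻¹⁻¹ := by
          push_cast
          group
        rw [h6]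
        exact h5 }
  have hfg : Group.FG (B ⧸ N.subgroupOf B) := by
    have h5 : Group.FG B := (Group.fg_iff_subgroup_fg B).2 hB
    exact Group.fg_of_surjective hq
  have htor : IsMulTorsion (B ⧸ N.subgroupOf B) := by
    intro a
    obtain ⟨x, rfl⟩ := hq a
    obtain ⟨k, hk0, hk⟩ := h4 x
    rw [isOfFinOrder_iff_pow_eq_one]
    refine ⟨k, Nat.pos_of_ne_zero hk0, ?_⟩
    rw [← map_pow]
    exact (QuotientGroup.eq_one_iff (N := N.subgroupOf B) _).2 (by
      rw [Subgroup.mem_subgroupOf]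
      simpa using hk)
  have : Finite (B ⧸ N.subgroupOf B) := CommGroup.finite_of_fg_isMulTorsion _ htor
  exact Subgroup.finiteIndex_of_finite_quotient

/-- if the normal subgroup `N` is linear of degree two and `G / N` is an abelian torsion group then
every finite subset of `G` lies in a normal subgroup which is linear -/
theorem exists_norm_lin {G : Type u} [Group G] (N : Subgroup G) [N.Normal]
    (h3 : ∀ g h : G, g * h * g⁻¹ * h⁻¹ ∈ N) (h4 : ∀ g : G, ∃ k : ℕ, k ≠ 0 ∧ g ^ k ∈ N)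
    {K : Type u} [Field K] (φ : N →* Matrix.GeneralLinearGroup (Fin 2) K)
    (hφ : Function.Injective φ) (S : Finset G) :
    ∃ M : Subgroup G, M.Normal ∧ N ≤ M ∧ (∀ g ∈ S, g ∈ M) ∧ (N.subgroupOf M).FiniteIndex ∧
      ∃ θ : M →* Matrix.GeneralLinearGroup (Fin (2 * (N.subgroupOf M).index)) K,
        Function.Injective θ := by
  let B : Subgroup G := Subgroup.closure (S : Set G)
  have hB : B.FG := ⟨S, rfl⟩
  let M : Subgroup G := B ⊔ N
  have hNM : N ≤ M := le_sup_right
  have hfin : (N.subgroupOf M).FiniteIndex := by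
    have h5 := (fin_index N h3 h4 B hB).index_ne_zero
    refine ⟨?_⟩
    have h6 : N.relIndex (B ⊔ N) = N.relIndex B := Subgroup.relIndex_sup_right B N
    show N.relIndex (B ⊔ N) ≠ 0
    rw [h6]
    exact h5
  let ψ : N.subgroupOf M →* N :=
    { toFun := fun x => ⟨x.1.1, x.2⟩
      map_one' := rfl
      map_mul' := fun _ _ => rfl }
  have hψ : Function.Injective ψ := by
    intro x y hxy
    have h5 : x.1.1 = y.1.1 := congrArg (fun z : N => (z : G)) hxy
    exact Subtype.ext (Subtype.ext h5)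
  obtain ⟨θ, hθ⟩ := fin_index_linear (N.subgroupOf M) (m := 2) two_pos (φ.comp ψ) (hφ.comp hψ)
  refine ⟨M, ⟨?_⟩, hNM, ?_, hfin, θ, hθ⟩
  · intro x hx g
    have h5 : g * x * g⁻¹ = (g * x * g⁻¹ * x⁻¹) * x := by group
    rw [h5]
    exact M.mul_mem (hNM (h3 g x)) hx
  · intro g hg
    exact (le_sup_left : B ≤ M) (Subgroup.subset_closure hg)

variable {A : Type u} [Ring A] [Nontrivial A]
  (htf : ∀ (n : ℕ) (a : A), n ≠ 0 → n • a = 0 → a = 0) (Y : Type u)

/-- a faithful representation of degree two of the free group in characteristic zero -/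
theorem exists_free_rep : ∃ (K : Type u) (_ : Field K) (_ : CharZero K)
    (ρ : FreeGroup Y →* Matrix (Fin 2) (Fin 2) K), Function.Injective ρ := by
  have htf : ∀ (n : ℕ) (a : ULift.{u} ℤ), n ≠ 0 → n • a = 0 → a = 0 := by
    intro n a hn h
    have h0 : n • a.down = 0 := congrArg ULift.down h
    rcases smul_eq_zero.1 h0 with h1 | h1
    · exact absurd h1 hn
    · exact ULift.ext _ _ h1
  obtain ⟨I, c, K, iK, iA, iC, ι, iF, iD, ρ, W, χ, hcard, hχ, hχ1, ht⟩ :=
    base_lin (A := ULift.{u} ℤ) htf Y (fun j _ => j.elim)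
  let e : ι ≃ Fin 2 := Fintype.equivFinOfCardEq hcard
  refine ⟨K, iK, iC, ((Matrix.reindexAlgEquiv K K e : Matrix ι ι K →* _)).comp ρ, ?_⟩
  intro x y hxy
  exact ht.ρ_inj ((Matrix.reindexAlgEquiv K K e).injective hxy)

include htf in
theorem main_nt {G : Type u} [Group G] (P : AGroup A G) (ι : Y → G) (hG : IsFree P ι) :
    ∃ N : Subgroup G, N.Normal ∧ (∀ y, ι y ∈ N) ∧ (∀ g h : G, g * h * g⁻¹ * h⁻¹ ∈ N) ∧
      (∀ g : G, ∃ k : ℕ, k ≠ 0 ∧ IsUnit (k : A) ∧ g ^ k ∈ N) ∧
      ∃ (S : Type u) (U : Ultrafilter S) (θ : N →* (U : Filter S).Germ (FreeGroup Y)),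
        Function.Injective θ := by
  obtain ⟨H, iH, e, ψ, h1, h2, h3, h4, h5⟩ := exists_nemb htf Y P ι hG
  have hδ1 : ∀ n, (ntow htf Y n).δ 1 = 0 := by
    intro n
    have h := (ntow htf Y n).δ_mul 1 1
    rw [mul_one] at h
    exact left_eq_add.1 h
  have hδi : ∀ n x, (ntow htf Y n).δ x⁻¹ = -(ntow htf Y n).δ x := by
    intro n x
    have h := (ntow htf Y n).δ_mul x⁻¹ x
    rw [inv_mul_cancel, hδ1] at h
    exact (neg_eq_of_add_eq_zero_left h.symm).symm
  have hup : ∀ n x, ∀ m, n ≤ m → ∃ y, e m y = e n x ∧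
      ((ntow htf Y m).δ y = 0 ↔ (ntow htf Y n).δ x = 0) := by
    intro n x m hm
    induction m, hm using Nat.le_induction with
    | base => exact ⟨x, rfl, Iff.rfl⟩
    | succ m _ ih =>
      obtain ⟨y, hy1, hy2⟩ := ih
      refine ⟨inG A (ntow htf Y m).c y, (h1 m y).trans hy1, ?_⟩
      rw [← hy2]
      exact (ntow htf Y m).next_δ htf y
  let N₀ : Subgroup H :=
    { carrier := {h | ∃ n x, e n x = h ∧ (ntow htf Y n).δ x = 0}
      one_mem' := ⟨0, 1, map_one _, hδ1 0⟩
      mul_mem' := by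
        rintro _ _ ⟨n, x, rfl, hx⟩ ⟨m, y, rfl, hy⟩
        obtain ⟨x', hx1, hx2⟩ := hup n x (max n m) (le_max_left _ _)
        obtain ⟨y', hy1, hy2⟩ := hup m y (max n m) (le_max_right _ _)
        refine ⟨max n m, x' * y', ?_, ?_⟩
        · rw [map_mul, hx1, hy1]
        · rw [(ntow htf Y _).δ_mul, hx2.2 hx, hy2.2 hy, add_zero]
      inv_mem' := by
        rintro _ ⟨n, x, rfl, hx⟩
        exact ⟨n, x⁻¹, map_inv _ _, by rw [hδi, hx, neg_zero]⟩ }
  have hmem : ∀ n x, e n x ∈ N₀ ↔ (ntow htf Y n).δ x = 0 := by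
    intro n x
    constructor
    · rintro ⟨m, y, hy1, hy2⟩
      obtain ⟨x', hx1, hx2⟩ := hup n x (max n m) (le_max_left _ _)
      obtain ⟨y', hz1, hz2⟩ := hup m y (max n m) (le_max_right _ _)
      have h6 : x' = y' := h2 _ (by rw [hx1, hz1, hy1])
      rw [← hx2, h6, hz2]
      exact hy2
    · intro hx
      exact ⟨n, x, rfl, hx⟩
  have hrep : ∀ g : G, ∃ n x, e n x = ψ g := fun g => h3 _
  have hrep2 : ∀ g h : G, ∃ n x y, e n x = ψ g ∧ e n y = ψ h := by
    intro g h
    obtain ⟨n, x, hx⟩ := hrep g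
    obtain ⟨m, y, hy⟩ := hrep h
    obtain ⟨x', hx1, -⟩ := hup n x (max n m) (le_max_left _ _)
    obtain ⟨y', hy1, -⟩ := hup m y (max n m) (le_max_right _ _)
    exact ⟨max n m, x', y', hx1.trans hx, hy1.trans hy⟩
  refine ⟨N₀.comap ψ, ?_, ?_, ?_, ?_, ?_⟩
  · constructor
    intro g hg h
    obtain ⟨n, x, y, hx, hy⟩ := hrep2 g h
    have hg' : ψ g ∈ N₀ := hg
    rw [← hx, hmem] at hg'
    show ψ (h * g * h⁻¹) ∈ N₀
    have h6 : ψ (h * g * h⁻¹) = e n (y * x * y⁻¹) := by
      rw [map_mul, map_mul, map_inv, map_mul, map_mul, map_inv, hx, hy]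
    rw [h6, hmem, (ntow htf Y n).δ_mul, (ntow htf Y n).δ_mul, hδi, hg', add_zero, add_neg_cancel]
  · intro y
    show ψ (ι y) ∈ N₀
    rw [h4, hmem]
    rfl
  · intro g h
    obtain ⟨n, x, y, hx, hy⟩ := hrep2 g h
    show ψ (g * h * g⁻¹ * h⁻¹) ∈ N₀
    have h6 : ψ (g * h * g⁻¹ * h⁻¹) = e n (x * y * x⁻¹ * y⁻¹) := by
      simp only [map_mul, map_inv, hx, hy]
    rw [h6, hmem]
    simp only [(ntow htf Y n).δ_mul, hδi]
    abel
  · intro g
    obtain ⟨n, x, hx⟩ := hrep g
    obtain ⟨k, hk0, hku, hk⟩ := (ntow htf Y n).dt.tor ((ntow htf Y n).δ x)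
    refine ⟨k, hk0, hku, ?_⟩
    show ψ (g ^ k) ∈ N₀
    have h6 : ψ (g ^ k) = e n (x ^ k) := by rw [map_pow, map_pow, hx]
    have h7 : ∀ j : ℕ, (ntow htf Y n).δ (x ^ j) = j • (ntow htf Y n).δ x := by
      intro j
      induction j with
      | zero => rw [pow_zero, zero_smul, hδ1]
      | succ j ih => rw [pow_succ, (ntow htf Y n).δ_mul, ih, succ_nsmul]
    rw [h6, hmem, h7, hk]
  · refine exists_ultra (N₀.comap ψ) ?_
    intro S hS
    classical
    have hN : ∃ n, ∀ a ∈ S, ∃ x, e n x = ψ a := by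
      induction S using Finset.induction_on with
      | empty => exact ⟨0, fun a ha => absurd ha (Finset.notMem_empty a)⟩
      | insert a S _ ih =>
        obtain ⟨n, hn⟩ := ih fun b hb => hS b (Finset.mem_insert_of_mem hb)
        obtain ⟨m, x, hx⟩ := hrep a
        refine ⟨max n m, ?_⟩
        intro b hb
        rcases Finset.mem_insert.1 hb with rfl | hb
        · obtain ⟨x', hx1, -⟩ := hup m x (max n m) (le_max_right _ _)
          exact ⟨x', hx1.trans hx⟩
        · obtain ⟨y, hy⟩ := hn b hb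
          obtain ⟨y', hy1, -⟩ := hup n y (max n m) (le_max_left _ _)
          exact ⟨y', hy1.trans hy⟩
    obtain ⟨n, hn⟩ := hN
    let r : G → (ntow htf Y n).G := fun a =>
      if h : ∃ x, e n x = ψ a then h.choose else 1
    have hr : ∀ a, (∃ x, e n x = ψ a) → e n (r a) = ψ a := by
      intro a ha
      show e n (if h : ∃ x, e n x = ψ a then h.choose else 1) = ψ a
      rw [dif_pos ha]
      exact ha.choose_spec
    obtain ⟨f, f1, f2, f3⟩ := (ntow htf Y n).le (S.image r) (by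
      intro x hx
      obtain ⟨a, ha, rfl⟩ := Finset.mem_image.1 hx
      have h6 : ψ a ∈ N₀ := hS a ha
      rw [← hr a (hn a ha), hmem] at h6
      exact h6)
    refine ⟨fun a => f (r a), ?_, ?_, ?_⟩
    · have h6 : r 1 = 1 := by
        apply h2 n
        rw [hr 1 ⟨1, by rw [map_one, map_one]⟩, map_one, map_one]
      show f (r 1) = 1
      rw [h6, f1]
    · intro a ha b hb
      have h6 : r (a * b) = r a * r b := by
        apply h2 n
        rw [map_mul, hr a (hn a ha), hr b (hn b hb), hr (a * b) ⟨r a * r b, by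
          rw [map_mul, hr a (hn a ha), hr b (hn b hb), map_mul]⟩, map_mul]
      show f (r (a * b)) = f (r a) * f (r b)
      rw [h6]
      exact f2 _ (Finset.mem_image_of_mem _ ha) _ (Finset.mem_image_of_mem _ hb)
    · intro a ha ha1
      refine f3 _ (Finset.mem_image_of_mem _ ha) ?_
      intro h6
      apply ha1
      apply h5
      rw [← hr a (hn a ha), h6, map_one, map_one]

end RNt
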