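import Pool.Agent.RNt.LEx
import Pool.Agent.RNt.Chi2
import Pool.Agent.RNt.Ext

set_option autoImplicit false

/-!
# RNt/Kappa: the exponents

Let `X = I →₀ T`, `n i` a positive order of `d i` (`tor`), `A' = χ.ker`, `C = A' × (X →₀ ℤ)`,
`e = (1, 0)`.  `C` is torsion-free and `ℤ e` is pure in `C` (`hpure`; if `n • (a, z) = k • (1, 0)` then
`z = 0` and `a = k' • 1`).  Take `S, U, L` from `exists_L` and put
`κ i a x s = L (⟨a + s₀ (x i) - s₀ (x i + χ a), _⟩, n i • (single x 1 - single (x + single i (χ a)) 1)) s`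
(`s₀` is the section `sec` of the statement).
* `k1`: additivity of `L`: the argument for `a + b, x` is the sum of the arguments for `a, x + single i
  (χ b)` and for `b, x`; note `(x + single i (χ b)) i = x i + χ b`.
* `k2`: for `a = 1`: `χ 1 = 0`, the argument is `(1, 0) = e`.
* `k3`: let `a` be not an integer.  The argument is not a multiple `k • e`: if `χ a ≠ 0` then
  `x ≠ x + single i (χ a)` and the second component is not zero (evaluate at `x`: it is `n i ≠ 0`).  If
  `χ a = 0` the first component is `a`, which is not `k • 1`.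
* `ψ`: by `exists_lim` for `C`, `L` and `d i` there is an additive `m i : C → D` with
  `L b s • d i = m i b` for almost all `s`.  Extend `a ↦ m i (a, 0)` from `A'` to `ψ i : A → D` by
  `exists_ext`.  `ψ i 1 = m i e = 1 • d i` (`L e s = 1`; `U` is not the empty filter, so two
  statements which hold almost everywhere hold at a common point).
* `k4`: `L b s • d i = m i b`, and `m i (b, n i • z) = m i (b, 0) + n i • m i (0, z)`, where
  `n i • m i (0, z) = 0` because almost everywhere `m i (0, z) = L (0, z) s • d i`.  With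
  `b = a + s₀ (x i) - s₀ (x i + χ a) ∈ A'`, `m i (b, 0) = ψ i b`.
-/

universe u

namespace RNt

section

variable {A : Type u} [Ring A] {T : Type u} [AddCommGroup T] (χ : A →+ T) (sec : T → A)
  (hsec : ∀ q a, χ (a + sec q - sec (q + χ a)) = 0) {I : Type u}

/-- the argument of `L` -/
private noncomputable def kapArg (n : ℕ) (i : I) (a : A) (x : I →₀ T) :
    χ.ker × ((I →₀ T) →₀ ℤ) :=
  (⟨a + sec (x i) - sec (x i + χ a), hsec (x i) a⟩,
    n • (Finsupp.single x 1 - Finsupp.single (x + Finsupp.single i (χ a)) 1))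

private theorem kapArg_add (n : ℕ) (i : I) (a b : A) (x : I →₀ T) :
    kapArg χ sec hsec n i (a + b) x =
      kapArg χ sec hsec n i a (x + Finsupp.single i (χ b)) + kapArg χ sec hsec n i b x := by
  have h1 : (x + Finsupp.single i (χ b)) i = x i + χ b := by
    rw [Finsupp.add_apply, Finsupp.single_eq_same]
  have h2 : x i + χ (a + b) = x i + χ b + χ a := by
    rw [map_add]
    abel
  have h3 : x + Finsupp.single i (χ (a + b)) =
      x + Finsupp.single i (χ b) + Finsupp.single i (χ a) := by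
    rw [map_add, Finsupp.single_add]
    abel
  refine Prod.ext (Subtype.ext ?_) ?_
  · show a + b + sec (x i) - sec (x i + χ (a + b)) =
      (a + sec ((x + Finsupp.single i (χ b)) i) - sec ((x + Finsupp.single i (χ b)) i + χ a)) +
        (b + sec (x i) - sec (x i + χ b))
    rw [h1, h2]
    abel
  · show n • (Finsupp.single x (1 : ℤ) - Finsupp.single (x + Finsupp.single i (χ (a + b))) 1) =
      n • (Finsupp.single (x + Finsupp.single i (χ b)) (1 : ℤ) -
        Finsupp.single (x + Finsupp.single i (χ b) + Finsupp.single i (χ a)) 1) +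
      n • (Finsupp.single x (1 : ℤ) - Finsupp.single (x + Finsupp.single i (χ b)) 1)
    rw [h3, ← smul_add]
    congr 1
    abel

private theorem kapArg_zero (n : ℕ) (i : I) (a : A) (ha : χ a = 0) (x : I →₀ T) :
    kapArg χ sec hsec n i a x = (⟨a, ha⟩, 0) := by
  refine Prod.ext (Subtype.ext ?_) ?_
  · show a + sec (x i) - sec (x i + χ a) = a
    rw [ha, add_zero]
    abel
  · show n • (Finsupp.single x (1 : ℤ) - Finsupp.single (x + Finsupp.single i (χ a)) 1) = 0
    rw [ha, Finsupp.single_zero, add_zero, sub_self, smul_zero]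

private theorem kapArg_snd {n : ℕ} (hn : n ≠ 0) (i : I) (a : A) (x : I →₀ T)
    (h : (kapArg χ sec hsec n i a x).2 = 0) : χ a = 0 := by
  have h1 : n • (Finsupp.single x (1 : ℤ) - Finsupp.single (x + Finsupp.single i (χ a)) 1) = 0 := h
  by_contra hc
  have hne : x ≠ x + Finsupp.single i (χ a) := by
    intro h2
    have h3 : Finsupp.single i (χ a) = 0 := by
      have := h2
      rwa [left_eq_add] at this
    rw [Finsupp.single_eq_zero] at h3
    exact hc h3
  have h4 := DFunLike.congr_fun h1 x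
  rw [Finsupp.smul_apply, Finsupp.sub_apply, Finsupp.single_eq_same,
    Finsupp.single_eq_of_ne hne, sub_zero,
    Finsupp.coe_zero, Pi.zero_apply] at h4
  simp at h4
  exact hn h4

end

theorem exists_kappa {A : Type u} [Ring A] [Nontrivial A]
    (htf : ∀ (n : ℕ) (a : A), n ≠ 0 → n • a = 0 → a = 0) {T : Type u} [AddCommGroup T]
    (χ : A →+ T) (hχ1 : χ 1 = 0)
    (hpure : ∀ (n : ℕ) (k : ℤ) (a : A), χ a = 0 → n ≠ 0 → n • a = k • (1 : A) →
      ∃ k' : ℤ, a = k' • (1 : A))
    (sec : T → A) (hsec : ∀ q a, χ (a + sec q - sec (q + χ a)) = 0)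
    {I : Type u} {D : Type u} [AddCommGroup D] (hD : DT A D) (d : I → D) :
    ∃ (S : Type u) (U : Ultrafilter S) (κ : I → A → (I →₀ T) → S → ℤ) (ψ : I → A →+ D),
      (∀ i, ψ i 1 = d i) ∧
      (∀ i a b x, ∀ᶠ s in (U : Filter S),
        κ i (a + b) x s = κ i a (x + Finsupp.single i (χ b)) s + κ i b x s) ∧
      (∀ i x, ∀ᶠ s in (U : Filter S), κ i 1 x s = 1) ∧
      (∀ i a x, (∀ k : ℤ, a ≠ (k : A)) → ∀ R : ℕ, ∀ᶠ s in (U : Filter S), (R : ℤ) ≤ |κ i a x s|) ∧
      ∀ i a x, ∀ᶠ s in (U : Filter S),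
        κ i a x s • d i = ψ i a + ψ i (sec (x i)) - ψ i (sec (x i + χ a)) := by
  classical
  have hn : ∀ i, ∃ k : ℕ, k ≠ 0 ∧ k • d i = 0 := fun i => by
    obtain ⟨k, h1, -, h2⟩ := hD.tor (d i)
    exact ⟨k, h1, h2⟩
  choose n hn0 hnd using hn
  have htfC : ∀ (k : ℕ) (c : χ.ker × ((I →₀ T) →₀ ℤ)), k ≠ 0 → k • c = 0 → c = 0 := by
    intro k c hk hc
    have h1 : k • c.1 = 0 := congrArg Prod.fst hc
    have h2 : k • c.2 = 0 := congrArg Prod.snd hc
    refine Prod.ext (Subtype.ext ?_) ?_
    · refine htf k (c.1 : A) hk ?_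
      have := congrArg Subtype.val h1
      simpa using this
    · ext z
      have := DFunLike.congr_fun h2 z
      rw [Finsupp.smul_apply] at this
      simp only [Finsupp.coe_zero, Pi.zero_apply, nsmul_eq_mul, mul_eq_zero, Nat.cast_eq_zero] at this
      rcases this with h | h
      · exact absurd h hk
      · exact h
  set e : χ.ker × ((I →₀ T) →₀ ℤ) := (⟨1, hχ1⟩, 0) with he
  have he0 : e ≠ 0 := by
    intro h
    have h1 := congrArg (fun c : χ.ker × ((I →₀ T) →₀ ℤ) => (c.1 : A)) h
    exact one_ne_zero h1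
  have hke : ∀ k : ℤ, ((k • e).1 : A) = k • (1 : A) ∧ (k • e).2 = 0 := by
    intro k
    constructor
    · show ((k • (⟨1, hχ1⟩ : χ.ker) : χ.ker) : A) = k • (1 : A)
      rfl
    · show k • (0 : (I →₀ T) →₀ ℤ) = 0
      exact smul_zero k
  have hpC : ∀ (m : ℕ) (k : ℤ) (c : χ.ker × ((I →₀ T) →₀ ℤ)), m ≠ 0 → m • c = k • e →
      ∃ k' : ℤ, c = k' • e := by
    intro m k c hm hc
    have h1 : m • (c.1 : A) = k • (1 : A) := by
      rw [← (hke k).1, ← hc]
      rfl
    have h2 : m • c.2 = 0 := by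
      rw [← (hke k).2, ← hc]
      rfl
    have h3 : c.2 = 0 := by
      ext z
      have := DFunLike.congr_fun h2 z
      rw [Finsupp.smul_apply] at this
      simp only [Finsupp.coe_zero, Pi.zero_apply, nsmul_eq_mul, mul_eq_zero, Nat.cast_eq_zero] at this
      rcases this with h | h
      · exact absurd h hm
      · exact h
    obtain ⟨k', hk'⟩ := hpure m k (c.1 : A) c.1.2 hm h1
    refine ⟨k', Prod.ext (Subtype.ext ?_) ?_⟩
    · rw [(hke k').1, hk']
    · rw [(hke k').2, h3]
  obtain ⟨S, U, L, hL1, hL2, hL3⟩ := exists_L e htfC he0 hpC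
  have hlim : ∀ i, ∃ m : (χ.ker × ((I →₀ T) →₀ ℤ)) →+ D,
      ∀ c, ∀ᶠ s in (U : Filter S), L c s • d i = m c := fun i =>
    exists_lim U L hL1 (d i) (hn0 i) (hnd i)
  choose m hm using hlim
  have hext : ∀ i, ∃ ψ : A →+ D, ∀ b : χ.ker, ψ b =
      (m i).comp (AddMonoidHom.inl χ.ker ((I →₀ T) →₀ ℤ)) b := fun i =>
    exists_ext hD.div χ.ker _
  choose ψ hψ using hext
  refine ⟨S, U, fun i a x s => L (kapArg χ sec hsec (n i) i a x) s, ψ, ?_, ?_, ?_, ?_, ?_⟩
  · intro i
    have h1 := hψ i ⟨1, hχ1⟩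
    have h2 : (m i).comp (AddMonoidHom.inl χ.ker ((I →₀ T) →₀ ℤ)) ⟨1, hχ1⟩ = m i e := rfl
    obtain ⟨s, hs⟩ := (hm i e).exists
    rw [h2, ← hs, hL2, one_smul] at h1
    exact h1
  · intro i a b x
    refine (hL1 (kapArg χ sec hsec (n i) i a (x + Finsupp.single i (χ b)))
      (kapArg χ sec hsec (n i) i b x)).mono fun s hs => ?_
    show L (kapArg χ sec hsec (n i) i (a + b) x) s = _
    rw [kapArg_add, hs]
  · intro i x
    refine Filter.Eventually.of_forall fun s => ?_
    show L (kapArg χ sec hsec (n i) i 1 x) s = 1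
    rw [kapArg_zero χ sec hsec (n i) i 1 hχ1 x]
    exact hL2 s
  · intro i a x ha R
    refine hL3 _ (fun k hk => ?_) R
    have h1 : χ a = 0 := kapArg_snd χ sec hsec (hn0 i) i a x (by rw [hk, (hke k).2])
    rw [kapArg_zero χ sec hsec (n i) i a h1 x] at hk
    have h2 := congrArg (fun c : χ.ker × ((I →₀ T) →₀ ℤ) => (c.1 : A)) hk
    have h3 : a = k • (1 : A) := h2.trans (hke k).1
    exact ha k (by rw [h3, zsmul_one])
  · intro i a x
    refine (hm i (kapArg χ sec hsec (n i) i a x)).mono fun s hs => ?_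
    show L (kapArg χ sec hsec (n i) i a x) s • d i = _
    rw [hs]
    set b : χ.ker := ⟨a + sec (x i) - sec (x i + χ a), hsec (x i) a⟩ with hb
    set z : (I →₀ T) →₀ ℤ :=
      Finsupp.single x 1 - Finsupp.single (x + Finsupp.single i (χ a)) 1 with hz
    have h1 : kapArg χ sec hsec (n i) i a x = (b, 0) + n i • ((0, z) : χ.ker × _) := by
      refine Prod.ext ?_ ?_
      · show b = b + n i • (0 : χ.ker)
        rw [smul_zero, add_zero]
      · show n i • z = 0 + n i • z
        rw [zero_add]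
    have h2 : n i • m i ((0, z) : χ.ker × _) = 0 := by
      obtain ⟨s', hs'⟩ := (hm i ((0, z) : χ.ker × _)).exists
      rw [← hs', smul_comm, hnd, smul_zero]
    rw [h1, map_add, map_nsmul, h2, add_zero]
    have h3 := hψ i b
    have h4 : (m i).comp (AddMonoidHom.inl χ.ker ((I →₀ T) →₀ ℤ)) b = m i (b, 0) := rfl
    rw [← h4, ← h3, hb]
    show ψ i (a + sec (x i) - sec (x i + χ a)) = _
    rw [map_sub, map_add]

end RNt
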