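import Mathlib

set_option autoImplicit false

/-!
# RNt/LEx: additive maps to the integers on finite pieces

Let `C` be a torsion-free abelian group, `e ∈ C`, `e ≠ 0`, such that `ℤ e` is pure in `C`.

`fin_L`.  For every finite set `T ⊆ C` and every `R` there is `f : C → ℤ` with `f e = 1`,
`f (a + b) = f a + f b` for all `a, b ∈ T`, and `|f a| ≥ R` for all `a ∈ T` which are not in `ℤ e`.
Proof.  Let `B` be the subgroup generated by `T ∪ {e}` (as a `ℤ`-submodule); it is finitely generated.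
The quotient `Q = B / ℤ e` is finitely generated and torsion-free (purity), hence free
(`Module.free_of_finite_type_torsion_free'` or its current name); so the projection `B → Q` has a
section (`Module.projective_lifting_property`) and there is an additive map
`p : B → ℤ` with `p e = 1` (`b - section (proj b)` is in `ℤ e`, and the coefficient is unique).
There is an additive map `φ : Q → ℤ` which does not vanish at the finitely many nonzero images of the
elements of `T`: with a basis `Q ≅ ℤ ^ r` put `φ x = ∑ x_j M ^ j` for a natural number `M` which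
is larger than all `|x_j|` of the images plus one; or use that the polynomials
`∑ x_j X ^ j ≠ 0` have finitely many roots, so some natural number is a root of none of them.
Put `f b = p b + N * φ (proj b)` for `b ∈ B` with `N ≥ R + max |p b|`, and `f b = 0` for
`b ∉ B` (but `f e = 1`).

`exists_L`.  `S = Finset C × ℕ`, ordered componentwise, `U` an ultrafilter which contains
`Filter.atTop` (`Ultrafilter.of`), `L a (T, R) = f a` for the `f` of `fin_L`.
-/

universe u

namespace RNt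

private theorem LEx_ints {C : Type u} [AddCommGroup C]
    (htf : ∀ (n : ℕ) (a : C), n ≠ 0 → n • a = 0 → a = 0) (k : ℤ) (a : C) (h : k • a = 0) :
    k = 0 ∨ a = 0 := by
  by_cases hk : k = 0
  · exact Or.inl hk
  · right
    refine htf k.natAbs a (Int.natAbs_ne_zero.2 hk) ?_
    rcases Int.natAbs_eq k with h1 | h1
    · rw [h1, natCast_zsmul] at h
      exact h
    · rw [h1, neg_smul, neg_eq_zero, natCast_zsmul] at h
      exact h

open Polynomial in
/-- A functional on a finite free `ℤ`-module which does not vanish on a finite set of nonzero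
vectors. -/
private theorem LEx_phi {Q : Type u} [AddCommGroup Q] [Module.Free ℤ Q] [Module.Finite ℤ Q]
    (T : Finset Q) (hT : ∀ x ∈ T, x ≠ 0) : ∃ φ : Q →ₗ[ℤ] ℤ, ∀ x ∈ T, φ x ≠ 0 := by
  classical
  let b := Module.finBasis ℤ Q
  let P : Q →ₗ[ℤ] ℤ[X] := ∑ j : Fin (Module.finrank ℤ Q),
    (LinearMap.toSpanSingleton ℤ ℤ[X] (X ^ (j : ℕ))) ∘ₗ b.coord j
  have hP : ∀ x, P x = ∑ j, (b.coord j x) • (X ^ (j : ℕ) : ℤ[X]) := by
    intro x
    simp only [P, LinearMap.sum_apply, LinearMap.comp_apply, LinearMap.toSpanSingleton_apply]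
  have hinj : ∀ x, P x = 0 → x = 0 := by
    intro x hx
    rw [← b.forall_coord_eq_zero_iff]
    intro j
    have h1 : (P x).coeff (j : ℕ) = b.coord j x := by
      rw [hP, finsetSum_coeff]
      rw [Finset.sum_eq_single j]
      · simp
      · intro i _ hi
        have hi' : (j : ℕ) ≠ (i : ℕ) := fun h => hi (Fin.ext h.symm)
        simp [coeff_X_pow, hi']
      · intro h
        exact absurd (Finset.mem_univ _) h
    rw [← h1, hx, coeff_zero]
  obtain ⟨M, hM⟩ := Infinite.exists_notMem_finset (T.biUnion fun x => (P x).roots.toFinset)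
  refine ⟨(leval M) ∘ₗ P, ?_⟩
  intro x hx h0
  apply hM
  rw [Finset.mem_biUnion]
  refine ⟨x, hx, ?_⟩
  rw [Multiset.mem_toFinset, mem_roots']
  refine ⟨fun h => hT x hx (hinj x h), ?_⟩
  simpa [leval] using h0

theorem fin_L {C : Type u} [AddCommGroup C] (e : C)
    (htf : ∀ (n : ℕ) (a : C), n ≠ 0 → n • a = 0 → a = 0) (he : e ≠ 0)
    (hpure : ∀ (n : ℕ) (k : ℤ) (a : C), n ≠ 0 → n • a = k • e → ∃ k' : ℤ, a = k' • e)
    (T : Finset C) (R : ℕ) :
    ∃ f : C → ℤ, f e = 1 ∧ (∀ a ∈ T, ∀ b ∈ T, f (a + b) = f a + f b) ∧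
      ∀ a ∈ T, (∀ k : ℤ, a ≠ k • e) → (R : ℤ) ≤ |f a| := by
  classical
  have htz := LEx_ints htf
  set B : Submodule ℤ C := Submodule.span ℤ (insert e (T : Set C)) with hB
  have heB : e ∈ B := Submodule.subset_span (Set.mem_insert _ _)
  have hTB : ∀ a ∈ T, a ∈ B := fun a ha =>
    Submodule.subset_span (Set.mem_insert_of_mem _ (by exact_mod_cast ha))
  have : Module.Finite ℤ B := by
    apply Module.Finite.of_fg
    have := Submodule.fg_span (R := ℤ) (M := C) (Set.Finite.insert e T.finite_toSet)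
    exact this
  set eB : B := ⟨e, heB⟩ with heBd
  set Z : Submodule ℤ B := Submodule.span ℤ {eB} with hZ
  have hZm : ∀ b : B, b ∈ Z ↔ ∃ k : ℤ, (b : C) = k • e := by
    intro b
    rw [hZ, Submodule.mem_span_singleton]
    constructor
    · rintro ⟨k, hk⟩
      exact ⟨k, by rw [← hk]; rfl⟩
    · rintro ⟨k, hk⟩
      exact ⟨k, by apply Subtype.ext; rw [hk]; rfl⟩
  have htQ : Module.IsTorsionFree ℤ (B ⧸ Z) := by
    apply Module.IsTorsionFree.of_smul_eq_zero
    intro r x hx
    by_cases hr : r = 0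
    · exact Or.inl hr
    · right
      obtain ⟨b, rfl⟩ := Submodule.Quotient.mk_surjective Z x
      rw [← Submodule.Quotient.mk_smul, Submodule.Quotient.mk_eq_zero, hZm] at hx
      rw [Submodule.Quotient.mk_eq_zero, hZm]
      obtain ⟨k, hk⟩ := hx
      have hk' : r • (b : C) = k • e := hk
      have hn : r.natAbs ≠ 0 := Int.natAbs_ne_zero.2 hr
      rcases Int.natAbs_eq r with h1 | h1
      · exact hpure r.natAbs k b hn (by rw [h1, natCast_zsmul] at hk'; exact hk')
      · refine hpure r.natAbs (-k) b hn ?_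
        rw [h1, neg_smul, natCast_zsmul] at hk'
        rw [neg_smul, ← hk', neg_neg]
  have : Module.Free ℤ (B ⧸ Z) := Module.free_of_finite_type_torsion_free'
  obtain ⟨s, hs⟩ := Module.projective_lifting_property (Z.mkQ) (LinearMap.id : (B ⧸ Z) →ₗ[ℤ] _)
    (Submodule.mkQ_surjective Z)
  have hs' : ∀ x, Z.mkQ (s x) = x := fun x => by
    have := LinearMap.congr_fun hs x
    simpa using this
  have hp : ∀ b : B, ∃ k : ℤ, (b : C) = (s (Z.mkQ b) : C) + k • e := by
    intro b
    have h1 : b - s (Z.mkQ b) ∈ Z := by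
      rw [← Submodule.Quotient.mk_eq_zero]
      have : Z.mkQ (b - s (Z.mkQ b)) = 0 := by rw [map_sub, hs', sub_self]
      exact this
    obtain ⟨k, hk⟩ := (hZm _).1 h1
    refine ⟨k, ?_⟩
    rw [← hk]
    simp
  choose p hp using hp
  have huniq : ∀ k k' : ℤ, k • e = k' • e → k = k' := by
    intro k k' h
    have h1 : (k - k') • e = 0 := by rw [sub_smul, h, sub_self]
    rcases htz _ _ h1 with h2 | h2
    · omega
    · exact absurd h2 he
  have hpadd : ∀ a b : B, p (a + b) = p a + p b := by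
    intro a b
    apply huniq
    have h1 := hp (a + b)
    rw [map_add, map_add] at h1
    have h2 := hp a
    have h3 := hp b
    have h4 : ((a + b : B) : C) = (a : C) + (b : C) := rfl
    have h5 : ((s (Z.mkQ a) + s (Z.mkQ b) : B) : C) = (s (Z.mkQ a) : C) + (s (Z.mkQ b) : C) := rfl
    rw [h4, h5] at h1
    rw [add_smul]
    have h6 : p (a + b) • e = (a : C) + b - ((s (Z.mkQ a) : C) + (s (Z.mkQ b) : C)) := by
      rw [h1]
      abel
    rw [h6]
    nth_rewrite 1 [h2]
    nth_rewrite 1 [h3]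
    abel
  have hpe : p eB = 1 := by
    apply huniq
    have h1 := hp eB
    have h2 : Z.mkQ eB = 0 := by
      have : eB ∈ Z := (hZm eB).2 ⟨1, by simp [heBd]⟩
      rw [← Submodule.Quotient.mk_eq_zero] at this
      exact this
    rw [h2, map_zero] at h1
    have h3 : ((0 : B) : C) = 0 := rfl
    rw [h3, zero_add] at h1
    rw [← h1, one_smul]
  -- the functional on the quotient
  let T' : Finset (B ⧸ Z) :=
    (T.attach.image fun a => Z.mkQ (⟨a.1, hTB a.1 a.2⟩ : B)).filter fun x => x ≠ 0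
  obtain ⟨φ, hφ⟩ := LEx_phi T' (fun x hx => (Finset.mem_filter.1 hx).2)
  let N : ℤ := R + ∑ a ∈ T.attach, |p ⟨a.1, hTB a.1 a.2⟩|
  let f : C → ℤ := fun c => if h : c ∈ B then p ⟨c, h⟩ + N * φ (Z.mkQ ⟨c, h⟩) else 0
  have hf : ∀ (c : C) (h : c ∈ B), f c = p ⟨c, h⟩ + N * φ (Z.mkQ ⟨c, h⟩) := by
    intro c h
    simp only [f, h, dif_pos]
  refine ⟨f, ?_, ?_, ?_⟩
  · rw [hf e heB, hpe]
    have h2 : Z.mkQ (⟨e, heB⟩ : B) = 0 := by
      have : eB ∈ Z := (hZm eB).2 ⟨1, by simp [heBd]⟩
      rw [← Submodule.Quotient.mk_eq_zero] at this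
      exact this
    rw [h2, map_zero, mul_zero, add_zero]
  · intro a ha b hb
    rw [hf a (hTB a ha), hf b (hTB b hb), hf (a + b) (B.add_mem (hTB a ha) (hTB b hb))]
    have h1 : (⟨a + b, B.add_mem (hTB a ha) (hTB b hb)⟩ : B) = ⟨a, hTB a ha⟩ + ⟨b, hTB b hb⟩ := rfl
    rw [h1, hpadd, map_add, map_add]
    ring
  · intro a ha hak
    rw [hf a (hTB a ha)]
    have h1 : Z.mkQ (⟨a, hTB a ha⟩ : B) ≠ 0 := by
      intro h
      have h2 : (⟨a, hTB a ha⟩ : B) ∈ Z := by
        rw [← Submodule.Quotient.mk_eq_zero]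
        exact h
      obtain ⟨k, hk⟩ := (hZm _).1 h2
      exact hak k hk
    have h2 : φ (Z.mkQ (⟨a, hTB a ha⟩ : B)) ≠ 0 := by
      apply hφ
      rw [Finset.mem_filter]
      exact ⟨Finset.mem_image.2 ⟨⟨a, ha⟩, Finset.mem_attach _ _, rfl⟩, h1⟩
    generalize φ (Z.mkQ (⟨a, hTB a ha⟩ : B)) = v at *
    have h3 : |p ⟨a, hTB a ha⟩| ≤ ∑ a ∈ T.attach, |p ⟨a.1, hTB a.1 a.2⟩| :=
      Finset.single_le_sum (f := fun a : {x // x ∈ T} => |p ⟨a.1, hTB a.1 a.2⟩|)
        (fun i _ => abs_nonneg _) (Finset.mem_attach T ⟨a, ha⟩)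
    have h4 : 1 ≤ |v| := Int.one_le_abs h2
    have h5 : 0 ≤ N := by
      have : 0 ≤ ∑ a ∈ T.attach, |p ⟨a.1, hTB a.1 a.2⟩| :=
        Finset.sum_nonneg fun i _ => abs_nonneg _
      simp only [N]
      positivity
    have h6 : N ≤ |N * v| := by
      rw [abs_mul, abs_of_nonneg h5]
      nlinarith
    have h7 : |N * v| ≤ |p ⟨a, hTB a ha⟩ + N * v| + |p ⟨a, hTB a ha⟩| := by
      have := abs_sub (p ⟨a, hTB a ha⟩ + N * v) (p ⟨a, hTB a ha⟩)
      simpa using this
    have h8 : N = R + ∑ a ∈ T.attach, |p ⟨a.1, hTB a.1 a.2⟩| := rfl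
    linarith

theorem exists_L {C : Type u} [AddCommGroup C] (e : C)
    (htf : ∀ (n : ℕ) (a : C), n ≠ 0 → n • a = 0 → a = 0) (he : e ≠ 0)
    (hpure : ∀ (n : ℕ) (k : ℤ) (a : C), n ≠ 0 → n • a = k • e → ∃ k' : ℤ, a = k' • e) :
    ∃ (S : Type u) (U : Ultrafilter S) (L : C → S → ℤ),
      (∀ a b, ∀ᶠ s in (U : Filter S), L (a + b) s = L a s + L b s) ∧ (∀ s, L e s = 1) ∧
      ∀ a, (∀ k : ℤ, a ≠ k • e) → ∀ R : ℕ, ∀ᶠ s in (U : Filter S), (R : ℤ) ≤ |L a s| := by
  classical
  have H := fun s : Finset C × ℕ => fin_L e htf he hpure s.1 s.2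
  choose f hf1 hf2 hf3 using H
  refine ⟨Finset C × ℕ, Ultrafilter.of Filter.atTop, fun a s => f s a, ?_, ?_, ?_⟩
  · intro a b
    have h := Filter.eventually_ge_atTop (({a, b} : Finset C), 0)
    refine Filter.Eventually.filter_mono (Ultrafilter.of_le _) (h.mono fun s hs => ?_)
    have h1 : ({a, b} : Finset C) ⊆ s.1 := hs.1
    exact hf2 s a (h1 (by simp)) b (h1 (by simp))
  · intro s
    exact hf1 s
  · intro a ha R
    have h := Filter.eventually_ge_atTop (({a} : Finset C), R)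
    refine Filter.Eventually.filter_mono (Ultrafilter.of_le _) (h.mono fun s hs => ?_)
    have h1 : ({a} : Finset C) ⊆ s.1 := hs.1
    have h2 : R ≤ s.2 := hs.2
    have h3 := hf3 s a (h1 (by simp)) ha
    have h4 : (R : ℤ) ≤ (s.2 : ℤ) := by exact_mod_cast h2
    exact le_trans h4 h3

end RNt
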