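import Pool.Agent.RNt.Def

set_option autoImplicit false

/-!
# RNt/Twisting: the twisting homomorphism

Let `*G = U.Germ G` be the group of germs.  By `step_lift` with
`H = Equiv.Perm (X × *G)` there is a homomorphism `Φ : Step A c → Equiv.Perm (X × *G)` with
`Φ (inG g) (x, y) = (x, g * y)` (the constant germ `g`) and
`Φ (inB i a) (x, y) = (x + v i a, ↑(fun s => c i ^ κ i a x s) * y)`.
The permutation `Φ (inB i a)` has the inverse
`(x, y) ↦ (x - v i a, (↑(fun s => c i ^ κ i a (x - v i a) s))⁻¹ * y)`.  Additivity in `a` is `k1`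
(`Φ (inB i (a + b)) (x, y)` against `Φ (inB i a) (Φ (inB i b) (x, y))`), and
`Φ (inB i 1) = Φ (inG (c i))` is `k2`, `hv1`.
Call a permutation `p` good if there is `t : X` such that for all `x` there is `f : *G` such that for
all `y` we have `p (x, y) = (x + t, f * y)`.  Good permutations form a subgroup which contains the
images of the generators, so by `step_gen` (`Subgroup.closure_induction`) every `Φ h` is good.
Choose `t = lam h` and `f`, and a representative `F h x : S → G` of `f`
(`Filter.Germ` is a quotient: `Quotient.out`, or `Filter.Germ.inductionOn`).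
The properties of `Twist` follow from `Φ (h * h') (x, 1) = Φ h (Φ h' (x, 1))` etc. and
`Filter.Germ.coe_eq`.
-/

universe u

namespace RNt

open RLin

section

variable {X : Type u} [AddCommGroup X] {M : Type u} [Group M]

/-- the permutation `(x, y) ↦ (x + t, f x * y)` -/
private def Twisting_perm (t : X) (f : X → M) : Equiv.Perm (X × M) where
  toFun p := (p.1 + t, f p.1 * p.2)
  invFun p := (p.1 - t, (f (p.1 - t))⁻¹ * p.2)
  left_inv p := by simp
  right_inv p := by simp

private theorem Twisting_perm_apply (t : X) (f : X → M) (x : X) (y : M) :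
    Twisting_perm t f (x, y) = (x + t, f x * y) := rfl

private theorem Twisting_perm_mul (t t' : X) (f f' : X → M) :
    Twisting_perm t f * Twisting_perm t' f' =
      Twisting_perm (t + t') (fun x => f (x + t') * f' x) := by
  apply Equiv.ext
  rintro ⟨x, y⟩
  rw [Equiv.Perm.mul_apply, Twisting_perm_apply, Twisting_perm_apply, Twisting_perm_apply,
    mul_assoc, add_assoc, add_comm t' t]

private theorem Twisting_perm_one :
    (1 : Equiv.Perm (X × M)) = Twisting_perm (0 : X) (fun _ => (1 : M)) := by
  apply Equiv.ext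
  rintro ⟨x, y⟩
  rw [Equiv.Perm.one_apply, Twisting_perm_apply, add_zero, one_mul]

private theorem Twisting_perm_inv (t : X) (f : X → M) :
    (Twisting_perm t f)⁻¹ = Twisting_perm (-t) (fun x => (f (x - t))⁻¹) := by
  rw [inv_eq_iff_mul_eq_one, Twisting_perm_mul, Twisting_perm_one]
  congr 1
  · exact add_neg_cancel t
  · funext x
    rw [sub_eq_add_neg, mul_inv_cancel]

private theorem Twisting_perm_inj {t t' : X} {f f' : X → M}
    (h : Twisting_perm t f = Twisting_perm t' f') : t = t' ∧ f = f' := by
  have h1 : ∀ x, (x + t, f x * 1) = (x + t', f' x * 1) := fun x => by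
    rw [← Twisting_perm_apply, ← Twisting_perm_apply, h]
  constructor
  · have h2 := congrArg Prod.fst (h1 0)
    exact add_left_cancel h2
  · funext x
    have h2 := congrArg Prod.snd (h1 x)
    exact mul_right_cancel h2

end

theorem exists_twist {A : Type u} [Ring A] {G : Type u} [Group G] {I : Type u} (c : I → G)
    {X : Type u} [AddCommGroup X] (v : I → A → X) (hv : ∀ i a b, v i (a + b) = v i a + v i b)
    (hv1 : ∀ i, v i 1 = 0) {S : Type u} (U : Filter S) (κ : I → A → X → S → ℤ)
    (k1 : ∀ i a b x, ∀ᶠ s in U, κ i (a + b) x s = κ i a (x + v i b) s + κ i b x s)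
    (k2 : ∀ i x, ∀ᶠ s in U, κ i 1 x s = 1) :
    ∃ (lam : Step A c → X) (F : Step A c → X → S → G), Twist c v U κ lam F := by
  -- the homomorphism on `G`
  let φ : G →* Equiv.Perm (X × U.Germ G) := MonoidHom.mk'
    (fun g => Twisting_perm (0 : X) (fun _ => ((fun _ : S => g : S → G) : U.Germ G)))
    (fun a b => by
      change Twisting_perm (0 : X) (fun _ => ((fun _ : S => a * b : S → G) : U.Germ G)) = _
      rw [Twisting_perm_mul]
      congr 1
      exact (add_zero (0 : X)).symm)
  have hφ : ∀ g, φ g =
      Twisting_perm (0 : X) (fun _ => ((fun _ : S => g : S → G) : U.Germ G)) := fun g => rfl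
  let θ : I → A → Equiv.Perm (X × U.Germ G) := fun i a =>
    Twisting_perm (v i a) (fun x => ((fun s => c i ^ κ i a x s : S → G) : U.Germ G))
  have hadd : ∀ i a b, θ i (a + b) = θ i a * θ i b := by
    intro i a b
    change Twisting_perm _ _ = Twisting_perm _ _ * Twisting_perm _ _
    rw [Twisting_perm_mul]
    congr 1
    · exact hv i a b
    · funext x
      rw [← Filter.Germ.coe_mul, Filter.Germ.coe_eq]
      filter_upwards [k1 i a b x] with s hs
      rw [hs, zpow_add]
      rfl
  have h1 : ∀ i, θ i 1 = φ (c i) := by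
    intro i
    rw [hφ]
    change Twisting_perm (v i 1) (fun x => ((fun s => c i ^ κ i 1 x s : S → G) : U.Germ G)) = _
    congr 1
    · exact hv1 i
    · funext x
      rw [Filter.Germ.coe_eq]
      filter_upwards [k2 i x] with s hs
      rw [hs, zpow_one]
  obtain ⟨Φ, hΦ1, hΦ2⟩ := step_lift (A := A) c φ θ hadd h1
  have good : ∀ h : Step A c, ∃ (t : X) (f : X → U.Germ G), Φ h = Twisting_perm t f := by
    intro h
    have hh : h ∈ Subgroup.closure (Set.range (inG A c) ∪ {x | ∃ i a, x = inB c i a}) := by
      rw [step_gen]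
      exact Subgroup.mem_top h
    induction hh using Subgroup.closure_induction with
    | mem x hx =>
      rcases hx with ⟨g, rfl⟩ | ⟨i, a, rfl⟩
      · exact ⟨_, _, (hΦ1 g).trans (hφ g)⟩
      · exact ⟨_, _, hΦ2 i a⟩
    | one => exact ⟨_, _, (map_one Φ).trans Twisting_perm_one⟩
    | mul x y _ _ hx hy =>
      obtain ⟨t, f, h3⟩ := hx
      obtain ⟨t', f', h4⟩ := hy
      exact ⟨_, _, by rw [map_mul, h3, h4, Twisting_perm_mul]⟩
    | inv x _ hx =>
      obtain ⟨t, f, h3⟩ := hx
      exact ⟨_, _, by rw [map_inv, h3, Twisting_perm_inv]⟩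
  choose lam f hf using good
  have hrep : ∀ g : U.Germ G, ∃ r : S → G, (r : U.Germ G) = g := fun g =>
    g.inductionOn fun r => ⟨r, rfl⟩
  choose rep hr using hrep
  refine ⟨lam, fun h x => rep (f h x), ?_, ?_, ?_, ?_, ?_, ?_⟩
  · intro h h'
    have h3 := hf (h * h')
    rw [map_mul, hf h, hf h', Twisting_perm_mul] at h3
    exact (Twisting_perm_inj h3).1.symm
  · intro g
    have h3 := (hf (inG A c g)).symm.trans ((hΦ1 g).trans (hφ g))
    exact (Twisting_perm_inj h3).1
  · intro i a
    have h3 := (hf (inB c i a)).symm.trans (hΦ2 i a)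
    exact (Twisting_perm_inj h3).1
  · intro h h' x
    have h3 := hf (h * h')
    rw [map_mul, hf h, hf h', Twisting_perm_mul] at h3
    have h4 := congrFun (Twisting_perm_inj h3).2 x
    have h5 : ((rep (f (h * h') x) : S → G) : U.Germ G) =
        ((rep (f h (x + lam h')) * rep (f h' x) : S → G) : U.Germ G) := by
      rw [Filter.Germ.coe_mul, hr, hr, hr]
      exact h4.symm
    exact Filter.Germ.coe_eq.1 h5
  · intro g x
    have h3 := (hf (inG A c g)).symm.trans ((hΦ1 g).trans (hφ g))
    have h4 := congrFun (Twisting_perm_inj h3).2 x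
    have h5 : ((rep (f (inG A c g) x) : S → G) : U.Germ G) = ((fun _ : S => g : S → G) : U.Germ G) := by
      rw [hr]
      exact h4
    exact Filter.Germ.coe_eq.1 h5
  · intro i a x
    have h3 := (hf (inB c i a)).symm.trans (hΦ2 i a)
    have h4 := congrFun (Twisting_perm_inj h3).2 x
    have h5 : ((rep (f (inB c i a) x) : S → G) : U.Germ G) =
        ((fun s => c i ^ κ i a x s : S → G) : U.Germ G) := by
      rw [hr]
      exact h4
    exact Filter.Germ.coe_eq.1 h5

end RNt
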