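import Pool.Agent.RNt.Def

set_option autoImplicit false

/-!
# RNt/Word: reduced words in the step group, injectivity of the twisting homomorphism

`exists_word0`: every element of `Step A c` is `inG g * wprod c w` for some `g` and some word `w`
(no condition).  `Subgroup.closure_induction` with `step_gen`: the set of these elements is closed
under multiplication and contains `inG g` and `inB i a = inG 1 * (inB i a * inG 1)`; it is enough
that it is closed under left multiplication by `inG g` and `inB i a` (the inverses of the generators
are generators); e.g. prove `∀ x ∈ closure, ∀ y in the set, x * y in the set`.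

`exists_word`: among all such expressions of `h` take one with a word of minimal length
(`Nat.find` or `WellFounded`).  It is reduced:
* if some letter is `(i, k, g)` with `k` an integer then `inB i k = inG (c i ^ k)` (`inB_int`)
  can be multiplied into the element of `G` on its left, which gives a shorter word;
* if `w` contains consecutive letters `(i, a, g), (i, b, g')` with `g = c i ^ k` then
  `inB i a * inG g * inB i b * inG g' = inB i (a + k + b) * inG g'` is a shorter word.
For the formal proof it may be easier to prove by induction on the length of `w` (strong induction)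
that every `inG g * wprod c w` is equal to `inG g' * wprod c w'` with `w'` reduced and not longer:
apply the induction hypothesis to the tail, then look at the first letter.  For this write
`inB i a * inG g * wprod c w = inB i a * inG g' * wprod c w'` with `w'` reduced, and distinguish: `a`
an integer; `w'` empty or with first index different from `i` or `g'` not a power of `c i`: reduced;
`w' = (i, b, g'') :: w''` and `g' = c i ^ k`: then the element is
`inB i (a + k + b) * inG g'' * wprod c w''`, and `w''` is reduced, and the pair
`(i, g'') :: w''` satisfies the condition of `Red`; either `a + k + b` is not an integer and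
`(i, a + k + b, g'') :: w''` is reduced, or it is an integer `k'` and we get
`inG (c i ^ k' * g'') * wprod c w''`.

`val_of_word`: if the letters of `w` are not integers, then for all `x`, all `R` and almost all `s`
`Val c R w̄ (F (wprod c w) x s)`, where `w̄` is the word without the exponents: induction on `w` with
`F_mul`, `F_G`, `F_B` and `k3`.

`twist_inj`: let `h = inG g * wprod c w ≠ 1`, `w` reduced.  If `w = []` then `g ≠ 1` and
`F h x s = F (inG g) x s = g` for almost all `s` (note `F 1 x s = 1`: `F (inG 1)`).  Otherwise
let `R` be given by `BP` for `w̄` and `g⁻¹`; for almost all `s`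
`F h x s = F (inG g) (x + lam _) s * F (wprod c w) x s = g * y` with `Val c R w̄ y`, so `y ≠ g⁻¹`.
-/

universe u

namespace RNt

open RLin

/-- the element of the step group given by a word -/
noncomputable def wprod {A : Type u} [Ring A] {G : Type u} [Group G] {I : Type u} (c : I → G) :
    List (I × A × G) → Step A c
  | [] => 1
  | p :: w => inB c p.1 p.2.1 * inG A c p.2.2 * wprod c w

variable {A : Type u} [Ring A] {G : Type u} [Group G] {I : Type u} {c : I → G}

/-- the statement of `exists_word` -/
private def Word_P (c : I → G) (h : Step A c) : Prop := ∃ (g : G) (w : List (I × A × G)),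
    h = inG A c g * wprod c w ∧ (∀ p ∈ w, ∀ k : ℤ, p.2.1 ≠ (k : A)) ∧
      Red c (w.map fun p => (p.1, p.2.2))

private theorem Word_one : Word_P c (1 : Step A c) := by
  refine ⟨1, [], ?_, ?_, ?_⟩
  · simp only [wprod, map_one, mul_one]
  · intro p hp
    exact absurd hp List.not_mem_nil
  · exact True.intro

private theorem Word_G (g : G) {h : Step A c} (hh : Word_P c h) : Word_P c (inG A c g * h) := by
  obtain ⟨g', w, h1, h2, h3⟩ := hh
  refine ⟨g * g', w, ?_, h2, h3⟩
  rw [h1, map_mul, mul_assoc]

private theorem Word_red_tail {p : I × G} {w : List (I × G)} (h : Red c (p :: w)) : Red c w := by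
  cases w with
  | nil => exact True.intro
  | cons q w => exact h.2

private theorem Word_B (i : I) (a : A) {h : Step A c} (hh : Word_P c h) :
    Word_P c (inB c i a * h) := by
  classical
  by_cases hint : ∃ k : ℤ, a = (k : A)
  · obtain ⟨k, rfl⟩ := hint
    rw [inB_int]
    exact Word_G _ hh
  · have hni : ∀ k : ℤ, a ≠ (k : A) := fun k hk => hint ⟨k, hk⟩
    obtain ⟨g, w, h1, h2, h3⟩ := hh
    cases w with
    | nil =>
      refine ⟨1, [(i, a, g)], ?_, ?_, ?_⟩
      · rw [h1]
        simp only [wprod, map_one, one_mul, mul_one]
      · intro p hp k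
        rw [List.mem_singleton] at hp
        rw [hp]
        exact hni k
      · exact True.intro
    | cons q w =>
      obtain ⟨j, b, g''⟩ := q
      by_cases hred : i = j → g ∉ Subgroup.zpowers (c i)
      · refine ⟨1, (i, a, g) :: (j, b, g'') :: w, ?_, ?_, ?_⟩
        · rw [h1]
          simp only [wprod, map_one, one_mul, mul_assoc]
        · intro p hp k
          rw [List.mem_cons] at hp
          rcases hp with hp | hp
          · rw [hp]
            exact hni k
          · exact h2 p hp k
        · exact ⟨hred, h3⟩
      · push Not at hred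
        obtain ⟨hij, hg⟩ := hred
        subst hij
        obtain ⟨k, hk⟩ := Subgroup.mem_zpowers_iff.1 hg
        have hprod : inB c i a * h = inB c i (a + (k : A) + b) * inG A c g'' * wprod c w := by
          rw [h1, inB_add, inB_add, inB_int, hk]
          simp only [wprod, mul_assoc]
        by_cases hint' : ∃ k' : ℤ, a + (k : A) + b = (k' : A)
        · obtain ⟨k', hk'⟩ := hint'
          refine ⟨c i ^ k' * g'', w, ?_, ?_, ?_⟩
          · rw [hprod, hk', inB_int, map_mul]
          · intro p hp
            exact h2 p (List.mem_cons_of_mem _ hp)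
          · exact Word_red_tail h3
        · refine ⟨1, (i, a + (k : A) + b, g'') :: w, ?_, ?_, ?_⟩
          · rw [hprod]
            simp only [wprod, map_one, one_mul]
          · intro p hp m
            rw [List.mem_cons] at hp
            rcases hp with hp | hp
            · rw [hp]
              exact fun hm => hint' ⟨m, hm⟩
            · exact h2 p (List.mem_cons_of_mem _ hp) m
          · exact h3

theorem exists_word (h : Step A c) : ∃ (g : G) (w : List (I × A × G)),
    h = inG A c g * wprod c w ∧ (∀ p ∈ w, ∀ k : ℤ, p.2.1 ≠ (k : A)) ∧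
      Red c (w.map fun p => (p.1, p.2.2)) := by
  have hmem : h ∈ Subgroup.closure (Set.range (inG A c) ∪ {x | ∃ i a, x = inB c i a}) := by
    rw [step_gen]
    exact Subgroup.mem_top h
  change Word_P c h
  induction hmem using Subgroup.closure_induction_left with
  | one => exact Word_one
  | mul_left x hx y _ hy =>
    rcases hx with ⟨g, rfl⟩ | ⟨i, a, rfl⟩
    · exact Word_G g hy
    · exact Word_B i a hy
  | inv_mul_cancel x hx y _ hy =>
    rcases hx with ⟨g, rfl⟩ | ⟨i, a, rfl⟩
    · rw [← map_inv]
      exact Word_G g⁻¹ hy
    · rw [← inB_neg]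
      exact Word_B i (-a) hy

variable {X : Type u} [AddCommGroup X] {v : I → A → X} {S : Type u} {U : Filter S}
variable {κ : I → A → X → S → ℤ} {lam : Step A c → X} {F : Step A c → X → S → G}

theorem twist_one (ht : Twist c v U κ lam F) (x : X) : ∀ᶠ s in U, F 1 x s = 1 := by
  have h := ht.F_G 1 x
  rw [map_one] at h
  exact h

private theorem Word_val (ht : Twist c v U κ lam F)
    (k3 : ∀ i a x, (∀ k : ℤ, a ≠ (k : A)) → ∀ R : ℕ, ∀ᶠ s in U, (R : ℤ) ≤ |κ i a x s|)
    (w : List (I × A × G)) (hw : ∀ p ∈ w, ∀ k : ℤ, p.2.1 ≠ (k : A)) (x : X) (R : ℕ) :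
    ∀ᶠ s in U, Val c R (w.map fun p => (p.1, p.2.2)) (F (wprod c w) x s) := by
  induction w with
  | nil =>
    filter_upwards [twist_one ht x] with s hs
    exact hs
  | cons p w ih =>
    have ih' := ih fun q hq => hw q (List.mem_cons_of_mem _ hq)
    have hp := hw p List.mem_cons_self
    have e1 := ht.F_mul (inB c p.1 p.2.1 * inG A c p.2.2) (wprod c w) x
    have e2 := ht.F_mul (inB c p.1 p.2.1) (inG A c p.2.2) (x + lam (wprod c w))
    have e3 := ht.F_G p.2.2 (x + lam (wprod c w))
    have e4 := ht.F_B p.1 p.2.1 (x + lam (wprod c w) + lam (inG A c p.2.2))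
    have e5 := k3 p.1 p.2.1 (x + lam (wprod c w) + lam (inG A c p.2.2)) hp R
    filter_upwards [ih', e1, e2, e3, e4, e5] with s h0 h1 h2 h3 h4 h5
    refine ⟨κ p.1 p.2.1 (x + lam (wprod c w) + lam (inG A c p.2.2)) s, h5,
      F (wprod c w) x s, h0, ?_⟩
    change F (inB c p.1 p.2.1 * inG A c p.2.2 * wprod c w) x s = _
    rw [h1, h2, h3, h4]

theorem twist_inj (ht : Twist c v U κ lam F) (hbp : BP c)
    (k3 : ∀ i a x, (∀ k : ℤ, a ≠ (k : A)) → ∀ R : ℕ, ∀ᶠ s in U, (R : ℤ) ≤ |κ i a x s|)
    (h : Step A c) (hh : h ≠ 1) (x : X) : ∀ᶠ s in U, F h x s ≠ 1 := by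
  obtain ⟨g, w, h1, h2, h3⟩ := exists_word h
  cases w with
  | nil =>
    have h4 : h = inG A c g := by
      rw [h1]
      simp only [wprod, mul_one]
    have hg : g ≠ 1 := by
      intro hg
      apply hh
      rw [h4, hg, map_one]
    filter_upwards [ht.F_G g x] with s hs
    rw [h4, hs]
    exact hg
  | cons p w =>
    obtain ⟨R, hR⟩ := hbp _ (by simp only [List.map_cons, ne_eq, reduceCtorEq, not_false_eq_true]) h3 g⁻¹
    filter_upwards [Word_val ht k3 (p :: w) h2 x R, ht.F_mul (inG A c g) (wprod c (p :: w)) x,
      ht.F_G g (x + lam (wprod c (p :: w)))] with s e1 e2 e3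
    rw [h1, e2, e3]
    intro he
    exact hR _ e1 (eq_inv_of_mul_eq_one_right he)

end RNt
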