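import Pool.Agent.RNt.Kappa
import Pool.Agent.RNt.Twisting
import Pool.Agent.RNt.Word
import Pool.Agent.RNt.Delta

set_option autoImplicit false

/-!
# RNt/StepN: one step of the tower

`δ' = (Ψ, lam) : Step A c → D × (I →₀ T)`.  If `Ψ h = 0` and `lam h = 0` then almost everywhere
`δ (F h 0 s) = Ψ h + η 0 - η (0 + lam h) = 0`.
-/

universe u

namespace RNt

open RLin

theorem step_nt {A : Type u} [Ring A] [Nontrivial A]
    (htf : ∀ (n : ℕ) (a : A), n ≠ 0 → n • a = 0 → a = 0) {G : Type u} [Group G] {I : Type u}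
    {c : I → G} (hbp : BP c) {D : Type u} [AddCommGroup D] (hD : DT A D) (δ : G → D)
    (hδ : ∀ x y, δ (x * y) = δ x + δ y) (F₀ : Type u) [Group F₀]
    (hLE : LE F₀ fun g => δ g = 0) :
    ∃ (D' : Type u) (_ : AddCommGroup D') (δ' : Step A c → D'), DT A D' ∧
      (∀ x y, δ' (x * y) = δ' x + δ' y) ∧ (∀ g, δ' (inG A c g) = 0 ↔ δ g = 0) ∧
      LE F₀ fun h => δ' h = 0 := by
  classical
  obtain ⟨T, iT, χ, hT, hχ1, hpure⟩ := exists_chi2 htf
  obtain ⟨sec, hsec0, hsec⟩ := exists_sec χ
  obtain ⟨S, U, κ, ψ, hψ1, k1, k2, k3, k4⟩ :=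
    exists_kappa htf χ hχ1 hpure sec hsec hD (fun i => δ (c i))
  obtain ⟨lam, F, ht⟩ := exists_twist c (X := I →₀ T) (fun i a => Finsupp.single i (χ a))
    (fun i a b => by rw [map_add, Finsupp.single_add])
    (fun i => by rw [hχ1, Finsupp.single_zero]) (U : Filter S) κ k1 k2
  obtain ⟨Ψ, hΨ, hΨG, hΨB⟩ := exists_psi (c := c) δ hδ ψ hψ1
  let η : (I →₀ T) → D := fun x => x.sum fun i q => ψ i (sec q)
  have hη : ∀ (x : I →₀ T) (i : I) (q : T), η (x + Finsupp.single i q) =
      η x + (ψ i (sec (x i + q)) - ψ i (sec (x i))) := by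
    intro x i q
    have h0 : ∀ j : I, ψ j (sec 0) = 0 := fun j => by rw [hsec0, map_zero]
    have e1 : η (x + Finsupp.single i q) =
        ∑ j ∈ insert i (x.support ∪ (x + Finsupp.single i q).support),
          ψ j (sec ((x + Finsupp.single i q) j)) := by
      refine Finsupp.sum_of_support_subset _ ?_ _ (fun j _ => h0 j)
      intro j hj
      exact Finset.mem_insert_of_mem (Finset.mem_union_right _ hj)
    have e2 : η x = ∑ j ∈ insert i (x.support ∪ (x + Finsupp.single i q).support),
          ψ j (sec (x j)) := by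
      refine Finsupp.sum_of_support_subset _ ?_ _ (fun j _ => h0 j)
      intro j hj
      exact Finset.mem_insert_of_mem (Finset.mem_union_left _ hj)
    rw [e1, e2, ← sub_eq_iff_eq_add', ← Finset.sum_sub_distrib,
      Finset.sum_eq_single i]
    · rw [Finsupp.add_apply, Finsupp.single_eq_same]
    · intro j _ hj
      rw [Finsupp.add_apply, Finsupp.single_eq_of_ne hj, add_zero, sub_self]
    · intro hi
      exact absurd (Finset.mem_insert_self _ _) hi
  have hdelta := twist_delta ht δ hδ ψ η (fun i a x => by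
    filter_upwards [k4 i a x] with s hs
    rw [hs, hη]
    abel) Ψ hΨ hΨG hΨB
  have hη0 : η 0 = 0 := Finsupp.sum_zero_index
  refine ⟨D × (I →₀ T), inferInstance, fun h => (Ψ h, lam h), ?_, ?_, ?_, ?_⟩
  · constructor
    · rintro n ⟨d, x⟩ hn
      obtain ⟨d', hd'⟩ := hD.div n d hn
      have hx : ∃ x' : I →₀ T, n • x' = x := by
        induction x using Finsupp.induction_linear with
        | zero => exact ⟨0, smul_zero _⟩
        | add x y hx hy =>
          obtain ⟨x', hx'⟩ := hx
          obtain ⟨y', hy'⟩ := hy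
          exact ⟨x' + y', by rw [smul_add, hx', hy']⟩
        | single i t =>
          obtain ⟨t', ht'⟩ := hT.div n t hn
          exact ⟨Finsupp.single i t', by rw [Finsupp.smul_single, ht']⟩
      obtain ⟨x', hx'⟩ := hx
      exact ⟨(d', x'), Prod.ext hd' hx'⟩
    · rintro ⟨d, x⟩
      obtain ⟨k, hk0, hku, hk⟩ := hD.tor d
      have hx : ∃ k : ℕ, k ≠ 0 ∧ IsUnit (k : A) ∧ k • x = 0 := by
        induction x using Finsupp.induction_linear with
        | zero => exact ⟨1, one_ne_zero, by rw [Nat.cast_one]; exact isUnit_one, smul_zero _⟩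
        | add x y hx hy =>
          obtain ⟨m, hm0, hmu, hm⟩ := hx
          obtain ⟨n, hn0, hnu, hn⟩ := hy
          refine ⟨m * n, mul_ne_zero hm0 hn0, by rw [Nat.cast_mul]; exact hmu.mul hnu, ?_⟩
          rw [smul_add, mul_smul m n y, hn, smul_zero, add_zero, mul_comm, mul_smul, hm,
            smul_zero]
        | single i t =>
          obtain ⟨m, hm0, hmu, hm⟩ := hT.tor t
          exact ⟨m, hm0, hmu, by rw [Finsupp.smul_single, hm, Finsupp.single_zero]⟩
      obtain ⟨m, hm0, hmu, hm⟩ := hx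
      refine ⟨k * m, mul_ne_zero hk0 hm0, by rw [Nat.cast_mul]; exact hku.mul hmu, ?_⟩
      refine Prod.ext ?_ ?_
      · show (k * m) • d = 0
        rw [mul_comm, mul_smul, hk, smul_zero]
      · show (k * m) • x = 0
        rw [mul_smul, hm, smul_zero]
  · intro x y
    exact Prod.ext (hΨ x y) (ht.lam_mul x y)
  · intro g
    constructor
    · intro h
      rw [← hΨG]
      exact congrArg Prod.fst h
    · intro h
      exact Prod.ext ((hΨG g).trans h) (ht.lam_G g)
  · intro Q hQ
    have hz : ∀ a ∈ Q, ∀ᶠ s in (U : Filter S), δ (F a 0 s) = 0 := by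
      intro a ha
      have h1 : Ψ a = 0 := congrArg Prod.fst (hQ a ha)
      have h2 : lam a = 0 := congrArg Prod.snd (hQ a ha)
      filter_upwards [hdelta a 0] with s hs
      rw [hs, h1, h2, add_zero, hη0, zero_add, sub_zero]
    have hm : ∀ a ∈ Q, ∀ b ∈ Q, ∀ᶠ s in (U : Filter S),
        F (a * b) 0 s = F a 0 s * F b 0 s := by
      intro a _ b hb
      have h2 : lam b = 0 := congrArg Prod.snd (hQ b hb)
      filter_upwards [ht.F_mul a b 0] with s hs
      rw [hs, h2, add_zero]
    have hi : ∀ a ∈ Q, a ≠ 1 → ∀ᶠ s in (U : Filter S), F a 0 s ≠ 1 :=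
      fun a _ ha => twist_inj ht hbp k3 a ha 0
    have h1 := twist_one ht 0
    have hall : ∀ᶠ s in (U : Filter S), (∀ a ∈ Q, δ (F a 0 s) = 0) ∧
        (∀ a ∈ Q, ∀ b ∈ Q, F (a * b) 0 s = F a 0 s * F b 0 s) ∧
        (∀ a ∈ Q, a ≠ 1 → F a 0 s ≠ 1) ∧ F 1 0 s = 1 := by
      refine Filter.Eventually.and ?_ (Filter.Eventually.and ?_ (Filter.Eventually.and ?_ h1))
      · exact (Filter.eventually_all_finset Q).2 hz
      · refine (Filter.eventually_all_finset Q).2 fun a ha => ?_
        exact (Filter.eventually_all_finset Q).2 fun b hb => hm a ha b hb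
      · refine (Filter.eventually_all_finset Q).2 fun a ha => ?_
        by_cases h : a = 1
        · exact Filter.Eventually.of_forall fun s hs => absurd h hs
        · filter_upwards [hi a ha h] with s hs _ using hs
    obtain ⟨s, s1, s2, s3, s4⟩ := hall.exists
    obtain ⟨f, f1, f2, f3⟩ := hLE (Q.image fun a => F a 0 s) (by
      intro x hx
      obtain ⟨a, ha, rfl⟩ := Finset.mem_image.1 hx
      exact s1 a ha)
    refine ⟨fun a => f (F a 0 s), ?_, ?_, ?_⟩
    · show f (F 1 0 s) = 1
      rw [s4, f1]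
    · intro a ha b hb
      show f (F (a * b) 0 s) = f (F a 0 s) * f (F b 0 s)
      rw [s2 a ha b hb]
      exact f2 _ (Finset.mem_image_of_mem _ ha) _ (Finset.mem_image_of_mem _ hb)
    · intro a ha ha1
      exact f3 _ (Finset.mem_image_of_mem _ ha) (s3 a ha ha1)

end RNt
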