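import Pool.Agent.RLin.Final
import Pool.Agent.RNt.BPMain
import Pool.Agent.RNt.StepN

set_option autoImplicit false

/-!
# RNt/Tower: the tower with the big powers property and the homomorphisms to torsion groups

`step_bp`, `base_bp` are `step_lin`, `base_lin` of `RLin/Tower` with the additional information `BP`.
-/

universe u

namespace RNt

open RLin Matrix

variable {A : Type u} [Ring A]

theorem step_bp [Nontrivial A] (htf : ∀ (n : ℕ) (a : A), n ≠ 0 → n • a = 0 → a = 0)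
    {G : Type u} [Group G] {I J : Type u} {c : I → G} {β : J → A → G} {m : ℕ} (hm : m ≠ 0)
    (h : Lin c β m) :
    Function.Injective (inG A c) ∧ ∃ (I' : Type u) (c' : I' → Step A c),
      Lin c' (Sum.elim (fun (j : J) (a : A) => inG A c (β j a)) fun (i : I) (a : A) =>
        inB c i a) (2 * m) ∧ BP c' := by
  obtain ⟨K, iK, iA, iC, ι, iF, iD, ρ, W, χ, hcard, hχ, hχ1, ht⟩ := h
  obtain ⟨L, jL, jA, jC, Γ, jΓ, ⟨P⟩⟩ := exists_place K
  have hne : Nonempty ι := by
    rw [← Fintype.card_pos_iff, hcard]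
    exact Nat.pos_of_ne_zero hm
  obtain ⟨ρ', h1, h2⟩ := step_hom P htf χ hχ hχ1 ht
  obtain ⟨hpp, hinj, hB, hdir⟩ := step_pp P htf ht ρ' h1 h2
  have hg := hpp.geo
  obtain ⟨I', c', W', hs, hs1, hs2⟩ := hg.sys
  refine ⟨hinj, I', c', ⟨L, jL, jA, jC, ι ⊕ ι, inferInstance, inferInstance, ρ', W',
    fun a => P.i (χ a), ?_, ?_, ?_, step_tow htf ht hg hinj hB hdir hs hs1 hs2⟩,
    bp hg hs2 hs.comm⟩
  · rw [Fintype.card_sum, hcard, two_mul]
  · intro x y
    show P.i (χ (x + y)) = P.i (χ x) * P.i (χ y)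
    rw [hχ, map_mul]
  · intro x
    show P.i (χ x) = 1 ↔ _
    rw [← hχ1 x]
    constructor
    · intro hx
      exact P.i.injective (by rw [hx, map_one])
    · intro hx
      rw [hx, map_one]

theorem base_bp [Nontrivial A] (htf : ∀ (n : ℕ) (a : A), n ≠ 0 → n • a = 0 → a = 0) (Y : Type u)
    (β : PEmpty.{u + 1} → A → FreeGroup Y) :
    ∃ (I : Type u) (c : I → FreeGroup Y), Lin c β 2 ∧ BP c := by
  obtain ⟨K, iK, iA, iC, χ, t, hχ, hχ1, ht⟩ := exists_chi htf (1 : A) one_ne_zero (Y ⊕ Y)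
  obtain ⟨L, jL, jA, jC, Γ, jΓ, ⟨P⟩⟩ := exists_place K
  obtain ⟨ρ', hPP, hD⟩ := base_pp P t ht
  have hG := hPP.geo
  obtain ⟨I, c, W, hS, h1, h2⟩ := hG.sys
  have hT : IsTow ρ' c W β :=
    { toSys := hS
      ρ_inj := by
        rw [injective_iff_map_eq_one]
        intro x hx
        have h2 : P.l ρ' x = 0 := by
          change P.len (ρ' x) = 0
          have h3 := (len_map P (1 : Matrix (Fin 2) (Fin 2) K)).1
          rwa [Matrix.map_one P.i (map_zero _) (map_one _), ← hx] at h3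
        exact Subgroup.mem_bot.1 ((hG.len_zero x).1 h2)
      β_add := fun j => j.elim
      β_inj := fun j => j.elim
      mal := fun j => j.elim
      mix := fun j => j.elim
      cover := by
        intro y hy
        obtain ⟨g, hg | ⟨hg, hg'⟩ | hg⟩ := hG.classify y
        · exfalso
          apply hy
          exact conj_eq_one_iff.1 (Subgroup.mem_bot.1 hg)
        · exact absurd hg' (hD _ hg)
        · obtain ⟨g', i, k, hk⟩ := h1 _ hg
          refine ⟨g' * g, Or.inr ⟨i, k, ?_⟩⟩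
          change c i ^ k = _ at hk
          rw [hk]
          group }
  refine ⟨I, c, ⟨L, jL, jA, jC, Fin 2, inferInstance, inferInstance, ρ', W,
    fun a => P.i (χ a), Fintype.card_fin 2, ?_, ?_, hT⟩, bp hG h2 hS.comm⟩
  · intro x y
    show P.i (χ (x + y)) = P.i (χ x) * P.i (χ y)
    rw [hχ, map_mul]
  · intro x
    have h1 : χ x = 1 ↔ ∃ k : ℤ, x = (k : A) := by
      rw [hχ1 x]
      simp only [zsmul_one]
    show P.i (χ x) = 1 ↔ _
    rw [← h1]
    constructor
    · intro hx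
      exact P.i.injective (by rw [hx, map_one])
    · intro hx
      rw [hx, map_one]

/-- a tower group together with a homomorphism to a torsion group whose kernel is locally
embeddable in `F₀` -/
structure NTow (A : Type u) [Ring A] (F₀ : Type u) [Group F₀] where
  /-- the group -/
  G : Type u
  [grp : Group G]
  /-- the index set of the cyclic subgroups -/
  I : Type u
  /-- the index set of the copies of `A` -/
  J : Type u
  /-- the generators of the cyclic subgroups -/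
  c : I → G
  /-- the copies of `A` -/
  β : J → A → G
  /-- the degree -/
  m : ℕ
  m_ne : m ≠ 0
  lin : Lin c β m
  bp : BP c
  /-- the torsion group -/
  D : Type u
  [add : AddCommGroup D]
  dt : DT A D
  /-- the homomorphism -/
  δ : G → D
  δ_mul : ∀ x y, δ (x * y) = δ x + δ y
  le : LE F₀ fun g => δ g = 0

attribute [instance] NTow.grp NTow.add

variable {F₀ : Type u} [Group F₀]

/-- the next tower group -/
noncomputable def NTow.next [Nontrivial A]
    (htf : ∀ (n : ℕ) (a : A), n ≠ 0 → n • a = 0 → a = 0) (t : NTow A F₀) : NTow A F₀ where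
  G := Step A t.c
  I := (step_bp htf t.m_ne t.lin).2.choose
  J := t.J ⊕ t.I
  c := (step_bp htf t.m_ne t.lin).2.choose_spec.choose
  β := Sum.elim (fun (j : t.J) (a : A) => inG A t.c (t.β j a)) fun (i : t.I) (a : A) =>
        inB t.c i a
  m := 2 * t.m
  m_ne := Nat.mul_ne_zero two_ne_zero t.m_ne
  lin := (step_bp htf t.m_ne t.lin).2.choose_spec.choose_spec.1
  bp := (step_bp htf t.m_ne t.lin).2.choose_spec.choose_spec.2
  D := (step_nt htf t.bp t.dt t.δ t.δ_mul F₀ t.le).choose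
  add := (step_nt htf t.bp t.dt t.δ t.δ_mul F₀ t.le).choose_spec.choose
  dt := (step_nt htf t.bp t.dt t.δ t.δ_mul F₀ t.le).choose_spec.choose_spec.choose_spec.1
  δ := (step_nt htf t.bp t.dt t.δ t.δ_mul F₀ t.le).choose_spec.choose_spec.choose
  δ_mul := (step_nt htf t.bp t.dt t.δ t.δ_mul F₀ t.le).choose_spec.choose_spec.choose_spec.2.1
  le := (step_nt htf t.bp t.dt t.δ t.δ_mul F₀ t.le).choose_spec.choose_spec.choose_spec.2.2.2

theorem NTow.next_δ [Nontrivial A]
    (htf : ∀ (n : ℕ) (a : A), n ≠ 0 → n • a = 0 → a = 0) (t : NTow A F₀) (g : t.G) :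
    (t.next htf).δ (inG A t.c g) = 0 ↔ t.δ g = 0 :=
  (step_nt htf t.bp t.dt t.δ t.δ_mul F₀ t.le).choose_spec.choose_spec.choose_spec.2.2.1 g

/-- the base of the tower -/
noncomputable def NTow.base [Nontrivial A]
    (htf : ∀ (n : ℕ) (a : A), n ≠ 0 → n • a = 0 → a = 0) (Y : Type u) :
    NTow A (FreeGroup Y) where
  G := FreeGroup Y
  I := (base_bp htf Y (fun j _ => j.elim)).choose
  J := PEmpty
  c := (base_bp htf Y (fun j _ => j.elim)).choose_spec.choose
  β := fun j _ => j.elim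
  m := 2
  m_ne := two_ne_zero
  lin := (base_bp htf Y (fun j _ => j.elim)).choose_spec.choose_spec.1
  bp := (base_bp htf Y (fun j _ => j.elim)).choose_spec.choose_spec.2
  D := PUnit
  dt := ⟨fun _ _ _ => ⟨0, rfl⟩, fun _ => ⟨1, one_ne_zero, by
    rw [Nat.cast_one]; exact isUnit_one, rfl⟩⟩
  δ := fun _ => 0
  δ_mul := fun _ _ => rfl
  le := fun _ _ => ⟨id, rfl, fun _ _ _ _ => rfl, fun _ _ h => h⟩

/-- the tower -/
noncomputable def ntow [Nontrivial A] (htf : ∀ (n : ℕ) (a : A), n ≠ 0 → n • a = 0 → a = 0)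
    (Y : Type u) : ℕ → NTow A (FreeGroup Y)
  | 0 => NTow.base htf Y
  | n + 1 => (ntow htf Y n).next htf

/-- the group-theoretic content of `Lin` -/
theorem NTow.facts (t : NTow A F₀) :
    (∀ j a b, t.β j (a + b) = t.β j a * t.β j b) ∧ (∀ j a, t.β j a = 1 → a = 0) ∧
      (∀ j j' g a a', a ≠ 0 → g * t.β j a * g⁻¹ = t.β j' a' → j = j' ∧ ∃ b, g = t.β j b) ∧
      (∀ j i g a (k : ℤ), g * t.β j a * g⁻¹ = t.c i ^ k → a = 0) ∧
      (∀ g, g ≠ 1 → ∃ h, (∃ j a, h * g * h⁻¹ = t.β j a) ∨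
        ∃ i, ∃ k : ℤ, h * g * h⁻¹ = t.c i ^ k) := by
  obtain ⟨K, iK, iA, iC, ι, iF, iD, ρ, W, χ, hcard, hχ, hχ1, ht⟩ := t.lin
  exact ⟨ht.β_add, ht.β_inj, ht.mal, ht.mix, ht.cover⟩

theorem ntow_inj [Nontrivial A] (htf : ∀ (n : ℕ) (a : A), n ≠ 0 → n • a = 0 → a = 0)
    (Y : Type u) (n : ℕ) : Function.Injective (inG A (ntow htf Y n).c) :=
  (step_bp htf (ntow htf Y n).m_ne (ntow htf Y n).lin).1

end RNt
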