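import Pool.Agent.RLin.Final
import Pool.Agent.RNt.Tower

set_option autoImplicit false

/-!
# RNt/Limit: the free `A`-group is the limit of the tower

This follows `RLin/Final` for the tower `ntow`.
-/

universe u

namespace RNt

open RLin

variable {A : Type u} [Ring A] [Nontrivial A]
  (htf : ∀ (n : ℕ) (a : A), n ≠ 0 → n • a = 0 → a = 0) (Y : Type u)

/-- the limit of the tower is an `A`-group -/
theorem exists_nlimit : ∃ (H : Type u) (_ : Group H) (e : ∀ n, (ntow htf Y n).G →* H)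
    (Q : AGroup A H), (∀ n x, e (n + 1) (inG A (ntow htf Y n).c x) = e n x) ∧
      (∀ n, Function.Injective (e n)) ∧ (∀ h, ∃ n x, e n x = h) ∧
      ∀ n j x a, Q.pow (e n ((ntow htf Y n).β j x)) a = e n ((ntow htf Y n).β j (x * a)) := by
  obtain ⟨H, iH, e, h1, h2, h3⟩ := exists_colim (fun n => (ntow htf Y n).G)
    (fun n => inG A (ntow htf Y n).c) (ntow_inj htf Y)
  let Λ : Set (A → H) := {b | ∃ n j, b = fun a => e n ((ntow htf Y n).β j a)}
  have up : ∀ n j, ∀ N, n ≤ N → ∃ j', (fun a => e n ((ntow htf Y n).β j a)) =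
      fun a => e N ((ntow htf Y N).β j' a) := by
    intro n j N hN
    induction N, hN using Nat.le_induction with
    | base => exact ⟨j, rfl⟩
    | succ N _ ih =>
      obtain ⟨j', hj'⟩ := ih
      refine ⟨Sum.inl j', ?_⟩
      rw [hj']
      funext a
      exact (h1 N _).symm
  have upx : ∀ n x, ∀ N, n ≤ N → ∃ y, e n x = e N y := by
    intro n x N hN
    induction N, hN using Nat.le_induction with
    | base => exact ⟨x, rfl⟩
    | succ N _ ih =>
      obtain ⟨y, hy⟩ := ih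
      exact ⟨inG A (ntow htf Y N).c y, hy.trans (h1 N y).symm⟩
  have hadd : ∀ b ∈ Λ, ∀ x y, b (x + y) = b x * b y := ?hadd
  have hinj : ∀ b ∈ Λ, ∀ x, b x = 1 → x = 0 := ?hinj
  have mal : ∀ b ∈ Λ, ∀ b' ∈ Λ, ∀ g a a', a ≠ 0 → g * b a * g⁻¹ = b' a' →
    b = b' ∧ ∃ x, g = b x := ?mal
  have cover : ∀ g, g ≠ 1 → ∃ h, ∃ b ∈ Λ, ∃ a, h * g * h⁻¹ = b a := ?cover
  · obtain ⟨Q, hQ⟩ := exists_agroup (A := A) Λ hadd hinj mal cover
    refine ⟨H, iH, e, Q, h1, h2, h3, ?_⟩
    intro n j x a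
    exact hQ _ ⟨n, j, rfl⟩ x a
  case hadd =>
    rintro b ⟨n, j, rfl⟩ x y
    show e n _ = e n _ * e n _
    rw [(ntow htf Y n).facts.1, map_mul]
  case hinj =>
    rintro b ⟨n, j, rfl⟩ x hx
    refine (ntow htf Y n).facts.2.1 j x (h2 n ?_)
    rw [map_one]
    exact hx
  case mal =>
    rintro b ⟨n, j, rfl⟩ b' ⟨n', j', rfl⟩ g a a' ha hg
    obtain ⟨m, g₀, hg₀⟩ := h3 g
    let N := max m (max n n')
    obtain ⟨j₁, hj₁⟩ := up n j N (le_trans (le_max_left _ _) (le_max_right _ _))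
    obtain ⟨j₂, hj₂⟩ := up n' j' N (le_trans (le_max_right _ _) (le_max_right _ _))
    obtain ⟨g₁, hg₁⟩ := upx m g₀ N (le_max_left _ _)
    rw [hj₁, hj₂]
    have k1 : e n ((ntow htf Y n).β j a) = e N ((ntow htf Y N).β j₁ a) := congrFun hj₁ a
    have k2 : e n' ((ntow htf Y n').β j' a') = e N ((ntow htf Y N).β j₂ a') := congrFun hj₂ a'
    have hg' : g₁ * (ntow htf Y N).β j₁ a * g₁⁻¹ = (ntow htf Y N).β j₂ a' := by
      apply h2 N
      rw [map_mul, map_mul, map_inv, ← k1, ← k2, ← hg₁, hg₀]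
      exact hg
    obtain ⟨k3, x, k4⟩ := (ntow htf Y N).facts.2.2.1 j₁ j₂ g₁ a a' ha hg'
    subst k3
    refine ⟨rfl, x, ?_⟩
    rw [← hg₀, hg₁, k4]
  case cover =>
    intro g hg
    obtain ⟨n, g₀, rfl⟩ := h3 g
    have hg₀ : g₀ ≠ 1 := by
      rintro rfl
      exact hg (map_one _)
    obtain ⟨h₀, h4⟩ := (ntow htf Y n).facts.2.2.2.2 g₀ hg₀
    rcases h4 with ⟨j, a, h5⟩ | ⟨i, k, h5⟩
    · refine ⟨e n h₀, _, ⟨n, j, rfl⟩, a, ?_⟩
      show _ = e n _
      rw [← h5]
      simp only [map_mul, map_inv]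
    · refine ⟨e n h₀, _, ⟨n + 1, Sum.inr i, rfl⟩, (k : A), ?_⟩
      show _ = e (n + 1) (inB (ntow htf Y n).c i (k : A))
      have h6 : e n (h₀ * g₀ * h₀⁻¹) = e (n + 1) (inB (ntow htf Y n).c i (k : A)) := by
        rw [h5, inB_int]
        exact (h1 n _).symm
      rw [← h6]
      simp only [map_mul, map_inv]

/-- every level of the free `A`-group is in the image of a tower group -/
theorem exists_nphi {G : Type u} [Group G] (P : AGroup A G) (ι : Y → G) {H : Type u} [Group H]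
    (e : ∀ n, (ntow htf Y n).G →* H) (Q : AGroup A H)
    (h1 : ∀ n x, e (n + 1) (inG A (ntow htf Y n).c x) = e n x)
    (h3 : ∀ n j x a, Q.pow (e n ((ntow htf Y n).β j x)) a = e n ((ntow htf Y n).β j (x * a)))
    (ψ : G →* H) (hψ1 : ∀ y, ψ (ι y) = e 0 (FreeGroup.of y))
    (hψ2 : ∀ g a, ψ (P.pow g a) = Q.pow (ψ g) a) (n : ℕ) :
    ∃ φ : (ntow htf Y n).G →* G, (∀ y, ψ (φ y) = e n y) ∧
      (∀ j b a, P.pow (φ ((ntow htf Y n).β j b)) a = φ ((ntow htf Y n).β j (b * a))) ∧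
      level P ι n ≤ φ.range := by
  induction n with
  | zero =>
    refine ⟨FreeGroup.lift ι, ?_, ?_, ?_⟩
    · intro y
      have h4 : ψ.comp (FreeGroup.lift ι) = e 0 := by
        apply FreeGroup.ext_hom
        intro y
        rw [MonoidHom.comp_apply, FreeGroup.lift_apply_of]
        exact hψ1 y
      exact DFunLike.congr_fun h4 y
    · intro j
      exact PEmpty.elim j
    · show Subgroup.closure (Set.range ι) ≤ _
      rw [Subgroup.closure_le]
      rintro _ ⟨y, rfl⟩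
      exact ⟨FreeGroup.of y, FreeGroup.lift_apply_of⟩
  | succ n ih =>
    obtain ⟨φ, k1, k2, k3⟩ := ih
    obtain ⟨Φ, l1, l2⟩ := step_lift (ntow htf Y n).c φ
      (fun i a => P.pow (φ ((ntow htf Y n).c i)) a) (fun i a b => P.pow_add _ _ _)
      (fun i => P.pow_one _)
    have hint : ∀ i (k : ℤ), P.pow (φ ((ntow htf Y n).c i)) (k : A) =
        φ ((ntow htf Y n).c i ^ k) := by
      intro i k
      rw [← l2 i (k : A), inB_int, l1]
    have l3 : Subgroup.closure {x | ∃ g ∈ level P ι n, ∃ a, x = P.pow g a} ≤ Φ.range := by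
      rw [Subgroup.closure_le]
      rintro _ ⟨g, hg, a, rfl⟩
      obtain ⟨y, rfl⟩ := k3 hg
      by_cases hy : y = 1
      · rw [hy, map_one, P.one_pow]
        exact one_mem _
      obtain ⟨h₀, h4⟩ := (ntow htf Y n).facts.2.2.2.2 y hy
      rcases h4 with ⟨j, b, h5⟩ | ⟨i, k, h5⟩
      · have h6 : y = h₀⁻¹ * (ntow htf Y n).β j b * h₀ := by
          rw [← h5]
          group
        refine ⟨inG A _ (h₀⁻¹ * (ntow htf Y n).β j (b * a) * h₀), ?_⟩
        rw [l1, h6]
        simp only [map_mul, map_inv]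
        rw [P.conj_pow, k2]
      · have h6 : y = h₀⁻¹ * (ntow htf Y n).c i ^ k * h₀ := by
          rw [← h5]
          group
        refine ⟨inG A _ h₀⁻¹ * inB _ i ((k : A) * a) * inG A _ h₀, ?_⟩
        rw [map_mul, map_mul, l1, l1, l2, h6]
        simp only [map_mul, map_inv]
        rw [P.conj_pow, P.pow_mul, hint]
    refine ⟨Φ, ?_, ?_, ?_⟩
    · have h4 : ψ.comp Φ = e (n + 1) := by
        refine step_ext (ntow htf Y n).c ?_ ?_
        · intro g
          rw [MonoidHom.comp_apply, l1, k1]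
          exact (h1 n g).symm
        · intro i a
          rw [MonoidHom.comp_apply, l2, hψ2, k1]
          have h5 := h3 (n + 1) (Sum.inr i) 1 a
          have h6 : e n ((ntow htf Y n).c i) = e (n + 1) (inB (ntow htf Y n).c i (1 : A)) := by
            rw [← inG_c]
            exact (h1 n _).symm
          rw [h6]
          rw [one_mul] at h5
          exact h5
      intro y
      exact DFunLike.congr_fun h4 y
    · intro j b a
      rcases j with j | i
      · show P.pow (Φ (inG A _ ((ntow htf Y n).β j b))) a =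
          Φ (inG A _ ((ntow htf Y n).β j (b * a)))
        rw [l1, l1, k2]
      · show P.pow (Φ (inB _ i b)) a = Φ (inB _ i (b * a))
        rw [l2, l2, P.pow_mul]
    · exact l3

/-- the free `A`-group embeds in the limit of the tower -/
theorem exists_nemb {G : Type u} [Group G] (P : AGroup A G) (ι : Y → G) (hG : IsFree P ι) :
    ∃ (H : Type u) (_ : Group H) (e : ∀ n, (ntow htf Y n).G →* H) (ψ : G →* H),
      (∀ n x, e (n + 1) (inG A (ntow htf Y n).c x) = e n x) ∧
      (∀ n, Function.Injective (e n)) ∧ (∀ h, ∃ n x, e n x = h) ∧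
      (∀ y, ψ (ι y) = e 0 (FreeGroup.of y)) ∧ Function.Injective ψ := by
  obtain ⟨H, iH, e, Q, h1, h2, h3, h4⟩ := exists_nlimit htf Y
  obtain ⟨ψ, ⟨hψ1, hψ2⟩, -⟩ := hG H Q (fun y => e 0 (FreeGroup.of y))
  refine ⟨H, iH, e, ψ, h1, h2, h3, hψ1, ?_⟩
  rw [injective_iff_map_eq_one]
  intro g hg
  obtain ⟨d, hd⟩ := level_union P ι hG g
  obtain ⟨φ, k1, -, k3⟩ := exists_nphi htf Y P ι e Q h1 h4 ψ hψ1 hψ2 d
  obtain ⟨x, rfl⟩ := k3 hd
  rw [k1] at hg
  rw [h2 d (hg.trans (map_one (e d)).symm), map_one]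

end RNt
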